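import Pool.Agent.PB.Spr.Defs
import Pool.Agent.PB.Meas

/-!
PROJECT PB, Section 9.1: SPRINKLING IDENTITY on the lattice.

`A` any vertex set, `y ∉ A`, `K` a finite vertex set containing `y`, disjoint from `A`, `E_K = EvK A y K`
= `{C_A(O_{p_c},y) = K}`, boundary pairs `bp K A`, good events `G q` (for instance `{y' → ∞ off A ∪ K}` in `O_p`)
depending on labels not touching `K`: given `E_K` (and the configuration inside `K`) the labels of the boundary
edges are i.i.d. uniform on `(p_c,1]`, independent of the good events.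
-/

set_option autoImplicit false
open MeasureTheory Filter Topology
open scoped ENNReal BigOperators

namespace Pool.Agent.PB

variable {d : ℕ}

theorem ind_congr {α : Type*} {s : Set α} {ω ω' : α} (h : (ω ∈ s) = (ω' ∈ s)) :
    s.indicator (1 : α → ℝ≥0∞) ω = s.indicator 1 ω' := by
  by_cases h1 : ω ∈ s
  · rw [Set.indicator_of_mem h1, Set.indicator_of_mem (h ▸ h1)]; rfl
  · rw [Set.indicator_of_notMem h1, Set.indicator_of_notMem (h ▸ h1)]

theorem measurableSet_EvK (A : Del (V d)) (y : V d) (K : Finset (V d)) :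
    MeasurableSet (EvK A y K) :=
  ((opn_MES (pc d)).clA A y).eq_set (K : Set (V d))

/-- `K` is connected from `y` inside `K`, off `A` -/
def innC (A : Del (V d)) (y : V d) (K : Finset (V d)) : Set (Om d) :=
  {ω | ∀ x ∈ K, Rch (A.rem (Oc ω) ∩ ins (K : Set (V d))) y x}

theorem measurableSet_innC (A : Del (V d)) (y : V d) (K : Finset (V d)) :
    MeasurableSet (innC A y K) := by
  have : innC A y K = ⋂ x ∈ K, {ω : Om d | Rch (A.rem (Oc ω) ∩ ins (K : Set (V d))) y x} := by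
    ext ω; simp [innC]
  rw [this]
  refine MeasurableSet.biInter K.countable_toSet fun x _ => ?_
  exact (((opn_MES (pc d)).rem A).inter (MES.const (ins (K : Set (V d))))).rch y x

theorem dep_rem_ins (A : Del (V d)) (K : Finset (V d)) {S : Set (Ix d)} (hS : inI (K : Set (V d)) ⊆ S) :
    DependsOn (fun ω : Om d => A.rem (Oc ω) ∩ ins (K : Set (V d))) S := by
  have h := dep_opn (d := d) (pc d) (ins (K : Set (V d))) (S := S)
    (fun e he => hS (Or.inl ⟨e, he, rfl⟩))
  intro ω ω' hω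
  have h2 : opn (pc d) ω ∩ ins (K : Set (V d)) = opn (pc d) ω' ∩ ins (K : Set (V d)) := h hω
  have h3 : Oc ω ∩ ins (K : Set (V d)) = Oc ω' ∩ ins (K : Set (V d)) := h2
  show A.rem (Oc ω) ∩ ins (K : Set (V d)) = A.rem (Oc ω') ∩ ins (K : Set (V d))
  rw [← rem_inter, ← rem_inter, h3]

theorem dep_innC (A : Del (V d)) (y : V d) (K : Finset (V d)) :
    DependsOn (fun ω : Om d => ω ∈ innC A y K) (inI (K : Set (V d))) := by
  intro ω ω' hω
  have h3 : A.rem (Oc ω) ∩ ins (K : Set (V d)) = A.rem (Oc ω') ∩ ins (K : Set (V d)) :=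
    dep_rem_ins A K subset_rfl hω
  show (ω ∈ innC A y K) = (ω' ∈ innC A y K)
  simp only [innC, Set.mem_ofPred_eq, h3]

theorem mem_bp_of {K : Finset (V d)} {A : Del (V d)} {ω : Om d} {p : ℝ} {a b : V d} (ha : a ∈ K)
    (hb : b ∉ K) (h : s(a, b) ∈ A.rem (opn p ω)) : (a, b) ∈ bp K A := by
  rw [mem_bp]
  refine ⟨ha, hb, h.2.2 b (Sym2.mem_mk_right a b), h.2.1, ?_⟩
  have h1 := h.1.1
  rwa [SimpleGraph.mem_edgeSet] at h1

/-- decomposition of the exploration event -/
theorem EvK_eq {A : Del (V d)} {y : V d} {K : Finset (V d)} (hyA : y ∉ A.S) (hyK : y ∈ K)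
    (hKA : Disjoint (K : Set (V d)) A.S) : EvK A y K = innC A y K ∩ allGt (bL K A) (pc d) := by
  ext ω
  constructor
  · intro h
    have hK : ClA A (Oc ω) y = (K : Set (V d)) := h
    constructor
    · intro x hx
      have hx' : x ∈ ClA A (Oc ω) y := by rw [hK]; exact hx
      have h2 : Rch (A.rem (Oc ω)) y x := hx'.2
      have : x ∈ K ∧ Rch (A.rem (Oc ω) ∩ ins (K : Set (V d))) y x := by
        clear hx hx'
        induction h2 with
        | refl => exact ⟨hyK, Rch.refl _ _⟩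
        | @tail a b h3 h4 ih =>
          have hb : b ∈ ClA A (Oc ω) y := ⟨hyA, h3.tail h4⟩
          rw [hK] at hb
          refine ⟨hb, ih.2.tail ⟨h4, ?_⟩⟩
          intro x hx
          rcases Sym2.mem_iff.1 hx with rfl | rfl
          · exact ih.1
          · exact hb
      exact this.2
    · intro i hi
      obtain ⟨q, hq, rfl⟩ := mem_bL.1 hi
      by_contra hcon
      rw [not_lt] at hcon
      have hq' := mem_bp.1 hq
      have hopen : s(q.1, q.2) ∈ Oc ω := ⟨by rw [SimpleGraph.mem_edgeSet]; exact hq'.2.2.2.2, hcon⟩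
      have hrem : s(q.1, q.2) ∈ A.rem (Oc ω) := by
        refine ⟨hopen, hq'.2.2.2.1, ?_⟩
        intro x hx hxA
        rcases Sym2.mem_iff.1 hx with rfl | rfl
        · exact Set.disjoint_left.1 hKA (by exact hq'.1) hxA
        · exact hq'.2.2.1 hxA
      have h1 : q.1 ∈ ClA A (Oc ω) y := by rw [hK]; exact hq'.1
      have h2 : q.2 ∈ ClA A (Oc ω) y := ⟨hyA, Rch.tail h1.2 hrem⟩
      rw [hK] at h2
      exact hq'.2.1 h2
  · rintro ⟨h1, h2⟩
    show ClA A (Oc ω) y = (K : Set (V d))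
    ext x
    constructor
    · rintro ⟨_, hx⟩
      refine Rch.mem_of_closed (K : Set (V d)) hyK ?_ hx
      intro a ha b hab
      by_contra hb
      have hq : (a, b) ∈ bp K A := mem_bp_of ha hb hab
      have := h2 (li (a, b)) (mem_bL.2 ⟨_, hq, rfl⟩)
      have h3 : ((ω (li (a, b)) : unitInterval) : ℝ) ≤ pc d := hab.1.2
      linarith
    · intro hx
      exact ⟨hyA, (h1 x hx).mono Set.inter_subset_left⟩

/-- the good events indexed by labels -/
def Glab (K : Finset (V d)) (A : Del (V d)) (G : V d × V d → Set (Om d)) (i : Ix d) : Set (Om d) :=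
  {ω | ∃ q ∈ bp K A, li q = i ∧ ω ∈ G q}

theorem mem_Glab {K : Finset (V d)} {A : Del (V d)} {G : V d × V d → Set (Om d)} {q : V d × V d}
    (hq : q ∈ bp K A) (ω : Om d) : ω ∈ Glab K A G (li q) ↔ ω ∈ G q := by
  constructor
  · rintro ⟨q', hq', h, hG⟩
    rwa [li_inj hq' hq h] at hG
  · intro h; exact ⟨q, hq, rfl, h⟩

theorem someGood_Glab (K : Finset (V d)) (A : Del (V d)) (G : V d × V d → Set (Om d)) (p : ℝ) :
    someGood (bL K A) (Glab K A G) p = hitB K A G p := by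
  ext ω
  simp only [someGood, hitB, Set.mem_ofPred_eq]
  constructor
  · rintro ⟨i, hi, h1, h2⟩
    obtain ⟨q, hq, rfl⟩ := mem_bL.1 hi
    exact ⟨q, hq, (mem_Glab hq ω).1 h1, h2⟩
  · rintro ⟨q, hq, h1, h2⟩
    exact ⟨li q, mem_bL.2 ⟨q, hq, rfl⟩, (mem_Glab hq ω).2 h1, h2⟩

theorem nGood_Glab (K : Finset (V d)) (A : Del (V d)) (G : V d × V d → Set (Om d)) (ω : Om d) :
    nGood (bL K A) (Glab K A G) ω = nB K A G ω := by
  classical
  unfold nGood nB
  have : (bL K A).filter (fun i => ω ∈ Glab K A G i) = ((bp K A).filter (fun q => ω ∈ G q)).image li := by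
    ext i
    simp only [Finset.mem_filter, Finset.mem_image]
    constructor
    · rintro ⟨hi, h⟩
      obtain ⟨q, hq, rfl⟩ := mem_bL.1 hi
      exact ⟨q, ⟨hq, (mem_Glab hq ω).1 h⟩, rfl⟩
    · rintro ⟨q, ⟨hq, h⟩, rfl⟩
      exact ⟨mem_bL.2 ⟨q, hq, rfl⟩, (mem_Glab hq ω).2 h⟩
  rw [this]
  exact Finset.card_image_of_injOn fun q hq q' hq' h =>
    li_inj (Finset.mem_filter.1 hq).1 (Finset.mem_filter.1 hq').1 h

theorem measurableSet_Glab (K : Finset (V d)) (A : Del (V d)) {G : V d × V d → Set (Om d)}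
    (hG : ∀ q, MeasurableSet (G q)) (i : Ix d) : MeasurableSet (Glab K A G i) := by
  have : Glab K A G i = ⋃ q ∈ bp K A, ({_ω | li q = i} ∩ G q) := by
    ext ω
    simp only [Glab, Set.mem_ofPred_eq, Set.mem_iUnion, Set.mem_inter_iff, exists_prop]
  rw [this]
  exact MeasurableSet.biUnion (bp K A).countable_toSet fun q _ => (MeasurableSet.const _).inter (hG q)

theorem dep_Glab (K : Finset (V d)) (A : Del (V d)) {G : V d × V d → Set (Om d)} {T : Set (Ix d)}
    (hGT : ∀ q, DependsOn (fun ω => ω ∈ G q) T) (i : Ix d) :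
    DependsOn (fun ω => ω ∈ Glab K A G i) T := by
  intro ω ω' h
  show (ω ∈ Glab K A G i) = (ω' ∈ Glab K A G i)
  simp only [Glab, Set.mem_ofPred_eq]
  have : ∀ q, (ω ∈ G q) = (ω' ∈ G q) := fun q => hGT q h
  simp only [this]

theorem ratio_pow (h01 : pc d < 1) {p : ℝ} (hp1 : p < 1) (n : ℕ) :
    ((1 - p) / (1 - pc d)) ^ n = Real.exp (-(epp d p * (n : ℝ))) := by
  have hr : 0 < (1 - p) / (1 - pc d) := div_pos (by linarith) (by linarith)
  unfold epp
  rw [neg_mul, neg_neg, mul_comm, Real.exp_nat_mul, Real.exp_log hr]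

theorem epp_nonneg (h01 : pc d < 1) {p : ℝ} (hp : pc d ≤ p) (hp1 : p < 1) : 0 ≤ epp d p := by
  unfold epp
  have : Real.log ((1 - p) / (1 - pc d)) ≤ 0 := by
    refine Real.log_nonpos (div_nonneg (by linarith) (by linarith)) ?_
    rw [div_le_one (by linarith)]; linarith
  linarith

/-- MAIN IDENTITY, general form: `f` depends on labels in `S`, the good events on labels in `T`. -/
theorem spr_gen (h0 : 0 ≤ pc d) (h01 : pc d < 1) {p : ℝ} (hp : pc d ≤ p) (hp1 : p < 1)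
    {A : Del (V d)} {y : V d} {K : Finset (V d)} (hyA : y ∉ A.S) (hyK : y ∈ K)
    (hKA : Disjoint (K : Set (V d)) A.S) {S T : Set (Ix d)} (hS : inI (K : Set (V d)) ⊆ S)
    (hST : Disjoint S T) (hBS : ∀ q ∈ bp K A, li q ∉ S) (hBT : ∀ q ∈ bp K A, li q ∉ T)
    {f : Om d → ℝ≥0∞} (hf : Measurable f) (hfS : DependsOn f S)
    {G : V d × V d → Set (Om d)} (hG : ∀ q, MeasurableSet (G q))
    (hGT : ∀ q, DependsOn (fun ω => ω ∈ G q) T) :
    ∫⁻ ω, f ω * (EvK A y K ∩ hitB K A G p).indicator 1 ω ∂Pr d =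
      (∫⁻ ω, f ω * (EvK A y K).indicator 1 ω ∂Pr d) *
        ∫⁻ ω, ENNReal.ofReal (1 - Real.exp (-(epp d p * (nB K A G ω : ℝ)))) ∂Pr d := by
  have hBS' : ∀ i ∈ bL K A, i ∉ S := fun i hi => by
    obtain ⟨q, hq, rfl⟩ := mem_bL.1 hi; exact hBS q hq
  have hBT' : ∀ i ∈ bL K A, i ∉ T := fun i hi => by
    obtain ⟨q, hq, rfl⟩ := mem_bL.1 hi; exact hBT q hq
  have hf' : Measurable (fun ω => f ω * (innC A y K).indicator 1 ω) :=
    hf.mul (measurable_one.indicator (measurableSet_innC A y K))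
  have hfS' : DependsOn (fun ω => f ω * (innC A y K).indicator 1 ω) S := by
    intro ω ω' h
    have h1 : (ω ∈ innC A y K) = (ω' ∈ innC A y K) := dep_innC A y K (fun i hi => h i (hS hi))
    have h2 : f ω = f ω' := hfS h
    show f ω * _ = f ω' * _
    rw [h2, ind_congr h1]
  have key := sprI_some (S := S) (T := T) (B := bL K A) hST hBS' hBT' h0 h01 hp hp1.le hf' hfS'
    (G := Glab K A G) (measurableSet_Glab K A hG) (dep_Glab K A hGT)
  rw [someGood_Glab] at key
  simp only [nGood_Glab, ratio_pow h01 hp1] at key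
  have e1 : ∀ ω, f ω * (innC A y K).indicator 1 ω * (allGt (bL K A) (pc d)).indicator 1 ω =
      f ω * (EvK A y K).indicator 1 ω := by
    intro ω
    rw [EvK_eq hyA hyK hKA, Set.inter_indicator_one, Pi.mul_apply, mul_assoc]
  have e2 : ∀ ω, f ω * (innC A y K).indicator 1 ω *
      (allGt (bL K A) (pc d) ∩ hitB K A G p).indicator 1 ω =
      f ω * (EvK A y K ∩ hitB K A G p).indicator 1 ω := by
    intro ω
    rw [EvK_eq hyA hyK hKA, Set.inter_assoc, Set.inter_indicator_one (s := innC A y K), Pi.mul_apply,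
      mul_assoc]
  simp only [e1, e2] at key
  exact key

theorem inI_subset_tI (K : Set (V d)) : inI K ⊆ tI K := by
  rintro i (⟨e, he, rfl⟩ | ⟨v, hv, b, rfl⟩)
  · induction e with
    | _ a b => exact inl_mem_tI.2 (mem_touch_left (he a (Sym2.mem_mk_left a b)))
  · exact inr_mem_tI.2 hv

/-- the standard case: `f` depends on labels inside `K`, good events on labels not touching `K` -/
theorem spr (h0 : 0 ≤ pc d) (h01 : pc d < 1) {p : ℝ} (hp : pc d ≤ p) (hp1 : p < 1)
    {A : Del (V d)} {y : V d} {K : Finset (V d)} (hyA : y ∉ A.S) (hyK : y ∈ K)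
    (hKA : Disjoint (K : Set (V d)) A.S)
    {f : Om d → ℝ≥0∞} (hf : Measurable f) (hfS : DependsOn f (inI (K : Set (V d))))
    {G : V d × V d → Set (Om d)} (hG : ∀ q, MeasurableSet (G q))
    (hGT : ∀ q, DependsOn (fun ω => ω ∈ G q) (tI (K : Set (V d)))ᶜ) :
    ∫⁻ ω, f ω * (EvK A y K ∩ hitB K A G p).indicator 1 ω ∂Pr d =
      (∫⁻ ω, f ω * (EvK A y K).indicator 1 ω ∂Pr d) *
        ∫⁻ ω, ENNReal.ofReal (1 - Real.exp (-(epp d p * (nB K A G ω : ℝ)))) ∂Pr d := by
  refine spr_gen h0 h01 hp hp1 hyA hyK hKA (S := inI (K : Set (V d))) subset_rfl ?_ ?_ ?_ hf hfS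
    hG hGT
  · exact Set.disjoint_left.2 fun i hi h => h (inI_subset_tI _ hi)
  · rintro q hq (⟨e, he, h⟩ | ⟨v, hv, b, h⟩)
    · have h1 : s(q.1, q.2) = e := Sum.inl_injective h
      have h2 := he q.2 (by rw [← h1]; exact Sym2.mem_mk_right _ _)
      exact (mem_bp.1 hq).2.1 h2
    · cases h
  · intro q hq h
    exact h (inl_mem_tI.2 (mem_touch_left (mem_bp.1 hq).1))

/-- `cfg` on `E_K` is the set of open edges inside `K` -/
theorem cfg_eq {A : Del (V d)} {y : V d} {K : Finset (V d)} (hyA : y ∉ A.S) {ω : Om d} (h : ω ∈ EvK A y K) :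
    cfg A K ω = A.rem (Oc ω) ∩ ins (K : Set (V d)) := by
  have hK : ClA A (Oc ω) y = (K : Set (V d)) := h
  have hcl : ∀ a ∈ K, ∀ b, s(a, b) ∈ A.rem (Oc ω) → b ∈ K := by
    intro a ha b hab
    have ha' : a ∈ ClA A (Oc ω) y := by rw [hK]; exact ha
    have hb : b ∈ ClA A (Oc ω) y := ⟨hyA, ha'.2.tail hab⟩
    rw [hK] at hb; exact hb
  ext e
  induction e with
  | _ a b =>
    constructor
    · rintro ⟨h1, h2⟩
      rw [mem_touch_iff] at h2
      have hab : a ∈ K ∧ b ∈ K := by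
        rcases h2 with h2 | h2
        · exact ⟨h2, hcl a h2 b h1⟩
        · exact ⟨hcl b h2 a (by rw [Sym2.eq_swap]; exact h1), h2⟩
      refine ⟨h1, ?_⟩
      intro x hx
      rcases Sym2.mem_iff.1 hx with rfl | rfl
      · exact hab.1
      · exact hab.2
    · rintro ⟨h1, h2⟩
      exact ⟨h1, mem_touch_left (h2 a (Sym2.mem_mk_left a b))⟩

/-- any property of a random subset of a finite set of edges is measurable -/
theorem measurableSet_fin {R : Om d → Set (Sym2 (V d))} (hR : MES R) {E0 : Set (Sym2 (V d))}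
    (hE0 : E0.Finite) (h : ∀ ω, R ω ⊆ E0) (Ψ : Set (Sym2 (V d)) → Prop) :
    MeasurableSet {ω : Om d | Ψ (R ω)} := by
  classical
  have : {ω : Om d | Ψ (R ω)} = ⋃ F ∈ hE0.toFinset.powerset,
      ({_ω | Ψ (F : Set (Sym2 (V d)))} ∩ {ω : Om d | R ω = (F : Set (Sym2 (V d)))}) := by
    ext ω
    simp only [Set.mem_ofPred_eq, Set.mem_iUnion, Set.mem_inter_iff, exists_prop, Finset.mem_powerset]
    constructor
    · intro hω
      have hfin : (R ω).Finite := hE0.subset (h ω)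
      refine ⟨hfin.toFinset, ?_, ?_, ?_⟩
      · intro e he
        exact hE0.mem_toFinset.2 (h ω (hfin.mem_toFinset.1 he))
      · simpa using hω
      · simp
    · rintro ⟨F, _, h1, h2⟩
      rw [h2]; exact h1
  rw [this]
  refine MeasurableSet.biUnion (Finset.countable_toSet _) fun F _ => (MeasurableSet.const _).inter ?_
  exact MVS.eq_set (W := Sym2 (V d)) (C := R) hR (F : Set (Sym2 (V d)))

theorem ins_finite (K : Finset (V d)) : (ins (K : Set (V d))).Finite := by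
  classical
  have hins : ins (K : Set (V d)) = ((K.sym2 : Finset (Sym2 (V d))) : Set (Sym2 (V d))) := by
    ext e
    simp only [ins, Set.mem_ofPred_eq, Finset.mem_coe, Finset.mem_sym2_iff]
  rw [hins]
  exact Finset.finite_toSet _

/-- lattice edges touching a finite set -/
theorem latTouch_finite (K : Finset (V d)) : ((lat d).edgeSet ∩ touch (K : Set (V d))).Finite := by
  classical
  refine Set.Finite.subset (((K ×ˢ U1 d).image (fun q => s(q.1, q.1 + q.2))).finite_toSet) ?_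
  intro e he
  induction e with
  | _ a b =>
    obtain ⟨h1, h2⟩ := he
    rw [SimpleGraph.mem_edgeSet] at h1
    have h1' : l1 (b - a) = 1 := h1
    have h1'' : l1 (a - b) = 1 := by rw [← l1_neg, neg_sub]; exact h1'
    rw [mem_touch_iff] at h2
    simp only [Finset.coe_image, Set.mem_image, Finset.mem_coe, Finset.mem_product, Prod.exists]
    rcases h2 with h2 | h2
    · exact ⟨a, b - a, ⟨h2, (mem_U1 _).2 h1'⟩, by simp⟩
    · exact ⟨b, a - b, ⟨h2, (mem_U1 _).2 h1''⟩, by rw [Sym2.eq_swap]; simp⟩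

theorem hitB_meas (K : Finset (V d)) (A : Del (V d)) {G : V d × V d → Set (Om d)}
    (hG : ∀ q, MeasurableSet (G q)) (p : ℝ) : MeasurableSet (hitB K A G p) := by
  rw [← someGood_Glab]
  exact measurableSet_someGood _ (measurableSet_Glab K A hG) p

/-- event form of the identity: `F` an event depending on labels in `S` -/
theorem spr_ev (h0 : 0 ≤ pc d) (h01 : pc d < 1) {p : ℝ} (hp : pc d ≤ p) (hp1 : p < 1)
    {A : Del (V d)} {y : V d} {K : Finset (V d)} (hyA : y ∉ A.S) (hyK : y ∈ K)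
    (hKA : Disjoint (K : Set (V d)) A.S) {S T : Set (Ix d)} (hS : inI (K : Set (V d)) ⊆ S)
    (hST : Disjoint S T) (hBS : ∀ q ∈ bp K A, li q ∉ S) (hBT : ∀ q ∈ bp K A, li q ∉ T)
    {F : Set (Om d)} (hF : MeasurableSet F) (hFS : DependsOn (fun ω => ω ∈ F) S)
    {G : V d × V d → Set (Om d)} (hG : ∀ q, MeasurableSet (G q))
    (hGT : ∀ q, DependsOn (fun ω => ω ∈ G q) T) :
    Pr d (F ∩ (EvK A y K ∩ hitB K A G p)) = Pr d (F ∩ EvK A y K) *
        ∫⁻ ω, ENNReal.ofReal (1 - Real.exp (-(epp d p * (nB K A G ω : ℝ)))) ∂Pr d := by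
  have hFd : DependsOn (fun ω => F.indicator (1 : Om d → ℝ≥0∞) ω) S := by
    intro ω ω' hω
    exact ind_congr (hFS hω)
  have key := spr_gen h0 h01 hp hp1 hyA hyK hKA hS hST hBS hBT (measurable_one.indicator hF) hFd
    hG hGT
  have e1 : ∀ ω, F.indicator (1 : Om d → ℝ≥0∞) ω * (EvK A y K ∩ hitB K A G p).indicator 1 ω =
      (F ∩ (EvK A y K ∩ hitB K A G p)).indicator 1 ω := by
    intro ω
    rw [Set.inter_indicator_one (s := F), Pi.mul_apply]
  have e2 : ∀ ω, F.indicator (1 : Om d → ℝ≥0∞) ω * (EvK A y K).indicator 1 ω =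
      (F ∩ EvK A y K).indicator 1 ω := by
    intro ω
    rw [Set.inter_indicator_one (s := F), Pi.mul_apply]
  simp only [e1, e2] at key
  rw [lintegral_indicator_one (hF.inter ((measurableSet_EvK A y K).inter (hitB_meas K A hG p))),
    lintegral_indicator_one (hF.inter (measurableSet_EvK A y K))] at key
  exact key

/-- configuration form: `Ψ` any property of the explored cluster (edges touching `K`, off `A`) -/
theorem spr_cfg (h0 : 0 ≤ pc d) (h01 : pc d < 1) {p : ℝ} (hp : pc d ≤ p) (hp1 : p < 1)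
    {A : Del (V d)} {y : V d} {K : Finset (V d)} (hyA : y ∉ A.S) (hyK : y ∈ K)
    (hKA : Disjoint (K : Set (V d)) A.S) (Ψ : Set (Sym2 (V d)) → Prop)
    {G : V d × V d → Set (Om d)} (hG : ∀ q, MeasurableSet (G q))
    (hGT : ∀ q, DependsOn (fun ω => ω ∈ G q) (tI (K : Set (V d)))ᶜ) :
    Pr d {ω | ω ∈ EvK A y K ∧ Ψ (cfg A K ω) ∧ ω ∈ hitB K A G p} =
      Pr d {ω | ω ∈ EvK A y K ∧ Ψ (cfg A K ω)} *
        ∫⁻ ω, ENNReal.ofReal (1 - Real.exp (-(epp d p * (nB K A G ω : ℝ)))) ∂Pr d := by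
  set F : Set (Om d) := {ω : Om d | Ψ (A.rem (Oc ω) ∩ ins (K : Set (V d)))} with hF
  have hFm : MeasurableSet F :=
    measurableSet_fin (((opn_MES (pc d)).rem A).inter (MES.const (ins (K : Set (V d)))))
      (ins_finite K) (fun ω => Set.inter_subset_right) Ψ
  have hFd : DependsOn (fun ω => ω ∈ F) (inI (K : Set (V d))) := by
    intro ω ω' hω
    have h3 : A.rem (Oc ω) ∩ ins (K : Set (V d)) = A.rem (Oc ω') ∩ ins (K : Set (V d)) :=
      dep_rem_ins A K subset_rfl hω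
    show (Ψ (A.rem (Oc ω) ∩ ins (K : Set (V d)))) = (Ψ (A.rem (Oc ω') ∩ ins (K : Set (V d))))
    rw [h3]
  have key := spr_ev h0 h01 hp hp1 hyA hyK hKA (S := inI (K : Set (V d))) subset_rfl
    (T := (tI (K : Set (V d)))ᶜ) (Set.disjoint_left.2 fun i hi h => h (inI_subset_tI _ hi))
    (by
      rintro q hq (⟨e, he, h⟩ | ⟨v, hv, b, h⟩)
      · have h1 : s(q.1, q.2) = e := Sum.inl_injective h
        have h2 := he q.2 (by rw [← h1]; exact Sym2.mem_mk_right _ _)
        exact (mem_bp.1 hq).2.1 h2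
      · cases h)
    (fun q hq h => h (inl_mem_tI.2 (mem_touch_left (mem_bp.1 hq).1))) hFm hFd hG hGT
  have e1 : F ∩ (EvK A y K ∩ hitB K A G p) =
      {ω | ω ∈ EvK A y K ∧ Ψ (cfg A K ω) ∧ ω ∈ hitB K A G p} := by
    ext ω
    simp only [Set.mem_inter_iff, Set.mem_ofPred_eq, hF]
    constructor
    · rintro ⟨h1, h2, h3⟩; exact ⟨h2, by rw [cfg_eq hyA h2]; exact h1, h3⟩
    · rintro ⟨h2, h1, h3⟩; exact ⟨by rw [← cfg_eq hyA h2]; exact h1, h2, h3⟩
  have e2 : F ∩ EvK A y K = {ω | ω ∈ EvK A y K ∧ Ψ (cfg A K ω)} := by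
    ext ω
    simp only [Set.mem_inter_iff, Set.mem_ofPred_eq, hF]
    constructor
    · rintro ⟨h1, h2⟩; exact ⟨h2, by rw [cfg_eq hyA h2]; exact h1⟩
    · rintro ⟨h2, h1⟩; exact ⟨by rw [← cfg_eq hyA h2]; exact h1, h2⟩
  rw [e1, e2] at key
  exact key

/-- form with ALL edges touching `K` (also the deleted ones): `HH` any property -/
theorem spr_touch (h0 : 0 ≤ pc d) (h01 : pc d < 1) {p : ℝ} (hp : pc d ≤ p) (hp1 : p < 1)
    {A : Del (V d)} {y : V d} {K : Finset (V d)} (hyA : y ∉ A.S) (hyK : y ∈ K)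
    (hKA : Disjoint (K : Set (V d)) A.S) (HH : Set (Sym2 (V d)) → Prop)
    {G : V d × V d → Set (Om d)} (hG : ∀ q, MeasurableSet (G q))
    (hGT : ∀ q, DependsOn (fun ω => ω ∈ G q) (tI (K : Set (V d)))ᶜ) :
    Pr d {ω | ω ∈ EvK A y K ∧ HH (Oc ω ∩ touch (K : Set (V d))) ∧ ω ∈ hitB K A G p} =
      Pr d {ω | ω ∈ EvK A y K ∧ HH (Oc ω ∩ touch (K : Set (V d)))} *
        ∫⁻ ω, ENNReal.ofReal (1 - Real.exp (-(epp d p * (nB K A G ω : ℝ)))) ∂Pr d := by
  set E1 : Set (Sym2 (V d)) := touch (K : Set (V d)) \ {e | Sum.inl e ∈ bL K A} with hE1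
  set F : Set (Om d) := {ω : Om d | HH (Oc ω ∩ E1)} with hF
  have hFm : MeasurableSet F := by
    refine measurableSet_fin ((opn_MES (pc d)).inter (MES.const E1)) (latTouch_finite K)
      (fun ω => ?_) HH
    exact fun e he => ⟨he.1.1, he.2.1⟩
  have hFd : DependsOn (fun ω => ω ∈ F) (tI (K : Set (V d)) \ {i | i ∈ bL K A}) := by
    have h := dep_opn (d := d) (pc d) E1 (S := tI (K : Set (V d)) \ {i | i ∈ bL K A})
      (fun e he => ⟨inl_mem_tI.2 he.1, he.2⟩)
    intro ω ω' hω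
    have h3 : Oc ω ∩ E1 = Oc ω' ∩ E1 := h hω
    show (HH (Oc ω ∩ E1)) = (HH (Oc ω' ∩ E1))
    rw [h3]
  have key := spr_ev h0 h01 hp hp1 hyA hyK hKA (S := tI (K : Set (V d)) \ {i | i ∈ bL K A})
    (T := (tI (K : Set (V d)))ᶜ)
    (by
      intro i hi
      refine ⟨inI_subset_tI _ hi, ?_⟩
      intro hb
      obtain ⟨q, hq, rfl⟩ := mem_bL.1 hb
      rcases hi with ⟨e, he, h⟩ | ⟨v, hv, b, h⟩
      · have h1 : s(q.1, q.2) = e := Sum.inl_injective h
        have h2 := he q.2 (by rw [← h1]; exact Sym2.mem_mk_right _ _)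
        exact (mem_bp.1 hq).2.1 h2
      · cases h)
    (Set.disjoint_left.2 fun i hi h => h hi.1)
    (fun q hq h => h.2 (mem_bL.2 ⟨q, hq, rfl⟩))
    (fun q hq h => h (inl_mem_tI.2 (mem_touch_left (mem_bp.1 hq).1))) hFm hFd hG hGT
  have e0 : ∀ ω ∈ EvK A y K, Oc ω ∩ touch (K : Set (V d)) = Oc ω ∩ E1 := by
    intro ω hω
    ext e
    simp only [hE1, Set.mem_inter_iff, Set.mem_sdiff, Set.mem_ofPred_eq]
    constructor
    · rintro ⟨h1, h2⟩
      refine ⟨h1, h2, ?_⟩
      intro hb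
      rw [EvK_eq hyA hyK hKA] at hω
      have := hω.2 _ hb
      have h3 : ((ω (Sum.inl e) : unitInterval) : ℝ) ≤ pc d := h1.2
      linarith
    · rintro ⟨h1, h2, _⟩; exact ⟨h1, h2⟩
  have e1 : F ∩ (EvK A y K ∩ hitB K A G p) =
      {ω | ω ∈ EvK A y K ∧ HH (Oc ω ∩ touch (K : Set (V d))) ∧ ω ∈ hitB K A G p} := by
    ext ω
    simp only [Set.mem_inter_iff, Set.mem_ofPred_eq, hF]
    constructor
    · rintro ⟨h1, h2, h3⟩; exact ⟨h2, by rw [e0 ω h2]; exact h1, h3⟩
    · rintro ⟨h2, h1, h3⟩; exact ⟨by rw [← e0 ω h2]; exact h1, h2, h3⟩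
  have e2 : F ∩ EvK A y K = {ω | ω ∈ EvK A y K ∧ HH (Oc ω ∩ touch (K : Set (V d)))} := by
    ext ω
    simp only [Set.mem_inter_iff, Set.mem_ofPred_eq, hF]
    constructor
    · rintro ⟨h1, h2⟩; exact ⟨h2, by rw [e0 ω h2]; exact h1⟩
    · rintro ⟨h2, h1⟩; exact ⟨by rw [← e0 ω h2]; exact h1, h2⟩
  rw [e1, e2] at key
  exact key

/-- lower bound: if `V ≥ v` with large probability -/
theorem spr_lower (h0 : 0 ≤ pc d) (h01 : pc d < 1) {p : ℝ} (hp : pc d ≤ p) (hp1 : p < 1)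
    {A : Del (V d)} {y : V d} {K : Finset (V d)} (hyA : y ∉ A.S) (hyK : y ∈ K)
    (hKA : Disjoint (K : Set (V d)) A.S) (Ψ : Set (Sym2 (V d)) → Prop)
    {G : V d × V d → Set (Om d)} (hG : ∀ q, MeasurableSet (G q))
    (hGT : ∀ q, DependsOn (fun ω => ω ∈ G q) (tI (K : Set (V d)))ᶜ) (v : ℝ) :
    Pr d {ω | ω ∈ EvK A y K ∧ Ψ (cfg A K ω)} *
        (ENNReal.ofReal (1 - Real.exp (-(epp d p * v))) * Pr d {ω | v ≤ (nB K A G ω : ℝ)}) ≤
      Pr d {ω | ω ∈ EvK A y K ∧ Ψ (cfg A K ω) ∧ ω ∈ hitB K A G p} := by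
  rw [spr_cfg h0 h01 hp hp1 hyA hyK hKA Ψ hG hGT]
  refine mul_le_mul_right ?_ _
  have hm : MeasurableSet {ω : Om d | v ≤ (nB K A G ω : ℝ)} := by
    have h1 := measurable_nGood (bL K A) (measurableSet_Glab K A hG)
    simp only [nGood_Glab] at h1
    exact measurableSet_le measurable_const h1
  rw [← lintegral_indicator_const hm]
  refine lintegral_mono fun ω => ?_
  by_cases h : ω ∈ {ω : Om d | v ≤ (nB K A G ω : ℝ)}
  · rw [Set.indicator_of_mem h]
    refine ENNReal.ofReal_le_ofReal ?_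
    have h2 : epp d p * v ≤ epp d p * (nB K A G ω : ℝ) :=
      mul_le_mul_of_nonneg_left h (epp_nonneg h01 hp hp1)
    have := Real.exp_le_exp.2 (neg_le_neg h2)
    linarith
  · rw [Set.indicator_of_notMem h]; exact bot_le

theorem nB_eq_sum (K : Finset (V d)) (A : Del (V d)) (G : V d × V d → Set (Om d)) (ω : Om d) :
    (nB K A G ω : ℝ) = ∑ q ∈ bp K A, (G q).indicator (fun _ => (1 : ℝ)) ω := by
  classical
  unfold nB
  rw [Finset.card_eq_sum_ones, Finset.sum_filter]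
  push_cast
  refine Finset.sum_congr rfl fun i _ => ?_
  by_cases h : ω ∈ G i <;> simp [h]

theorem measurable_nB (K : Finset (V d)) (A : Del (V d)) {G : V d × V d → Set (Om d)}
    (hG : ∀ q, MeasurableSet (G q)) : Measurable (fun ω => (nB K A G ω : ℝ)) := by
  simp only [nB_eq_sum]
  exact Finset.measurable_sum _ fun i _ => measurable_const.indicator (hG i)

theorem nB_le (K : Finset (V d)) (A : Del (V d)) (G : V d × V d → Set (Om d)) (ω : Om d) :
    nB K A G ω ≤ (bp K A).card := by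
  classical
  unfold nB
  exact Finset.card_filter_le _ _

theorem integral_nB (K : Finset (V d)) (A : Del (V d)) {G : V d × V d → Set (Om d)}
    (hG : ∀ q, MeasurableSet (G q)) :
    ∫ ω, (nB K A G ω : ℝ) ∂Pr d = ∑ q ∈ bp K A, (Pr d (G q)).toReal := by
  simp only [nB_eq_sum]
  rw [integral_finsetSum _ fun q _ => (integrable_const (1 : ℝ)).indicator (hG q)]
  refine Finset.sum_congr rfl fun q _ => ?_
  rw [integral_indicator_const _ (hG q)]
  simp [Measure.real]

/-- upper bound (Jensen): `E[1 - e^{-ε'' V}] ≤ 1 - e^{-ε'' E V}` -/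
theorem jensen_V (K : Finset (V d)) (A : Del (V d)) {G : V d × V d → Set (Om d)}
    (hG : ∀ q, MeasurableSet (G q)) {c : ℝ} (hc : 0 ≤ c) :
    ∫⁻ ω, ENNReal.ofReal (1 - Real.exp (-(c * (nB K A G ω : ℝ)))) ∂Pr d ≤
      ENNReal.ofReal (1 - Real.exp (-(c * ∑ q ∈ bp K A, (Pr d (G q)).toReal))) := by
  have hmV := measurable_nB K A hG
  have hV0 : ∀ ω, 0 ≤ c * (nB K A G ω : ℝ) := fun ω => mul_nonneg hc (Nat.cast_nonneg _)
  have hm1 : Measurable (fun ω => Real.exp (-(c * (nB K A G ω : ℝ)))) :=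
    Real.measurable_exp.comp ((hmV.const_mul c).neg)
  have hi1 : Integrable (fun ω => Real.exp (-(c * (nB K A G ω : ℝ)))) (Pr d) := by
    refine Integrable.of_bound (C := 1) hm1.aestronglyMeasurable (ae_of_all _ fun ω => ?_)
    rw [Real.norm_eq_abs, abs_of_pos (Real.exp_pos _), Real.exp_le_one_iff]
    linarith [hV0 ω]
  have hi2 : Integrable (fun ω => -(c * (nB K A G ω : ℝ))) (Pr d) := by
    refine Integrable.of_bound (C := c * (bp K A).card) ((hmV.const_mul c).neg).aestronglyMeasurable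
      (ae_of_all _ fun ω => ?_)
    rw [Real.norm_eq_abs, abs_neg, abs_of_nonneg (hV0 ω)]
    exact mul_le_mul_of_nonneg_left (by exact_mod_cast nB_le K A G ω) hc
  have hi3 : Integrable (fun ω => 1 - Real.exp (-(c * (nB K A G ω : ℝ)))) (Pr d) :=
    (integrable_const (1 : ℝ)).sub hi1
  rw [← ofReal_integral_eq_lintegral_ofReal hi3 (ae_of_all _ fun ω => ?_)]
  · refine ENNReal.ofReal_le_ofReal ?_
    have hsub : ∫ ω, (1 - Real.exp (-(c * (nB K A G ω : ℝ)))) ∂Pr d =
        1 - ∫ ω, Real.exp (-(c * (nB K A G ω : ℝ))) ∂Pr d := by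
      have := integral_sub (integrable_const (1 : ℝ) (μ := Pr d)) hi1
      simpa using this
    rw [hsub]
    have hj : Real.exp (∫ ω, -(c * (nB K A G ω : ℝ)) ∂Pr d) ≤
        ∫ ω, Real.exp (-(c * (nB K A G ω : ℝ))) ∂Pr d :=
      convexOn_exp.map_integral_le Real.continuous_exp.continuousOn isClosed_univ
        (ae_of_all _ fun _ => Set.mem_univ _) hi2 hi1
    rw [integral_neg, integral_const_mul, integral_nB K A hG] at hj
    linarith
  · have : Real.exp (-(c * (nB K A G ω : ℝ))) ≤ 1 := by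
      rw [Real.exp_le_one_iff]; linarith [hV0 ω]
    show 0 ≤ 1 - Real.exp (-(c * (nB K A G ω : ℝ)))
    linarith

end Pool.Agent.PB
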