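import Pool.Agent.PB.Spr.Defs
import Pool.Agent.PB.Meas

/-!
PB-SPR-Exit (Section 9.1, deterministic part).  Last exit from a finite set `K`.

`O'` is any set of lattice edges (later `O_p`), `A` a vertex set, `K` a finite vertex set, `y ∈ K`, `K ∩ A = ∅`.

Plan. `exit_mem`: induction along the connection `Rch ((Del.ofSet A).rem O') y z` (`Relation.ReflTransGen`
induction / `Rch.induct`) of the statement '`w ∈ K` or there is `q ∈ bp K (ofSet A)` with `s(q.1,q.2) ∈ O'` and
`w ∈ ClA (ofSet (A ∪ K)) O' q.2`'. Start: `y ∈ K`. Step `a → b` with `s(a,b) ∈ (ofSet A).rem O'` (so `a, b ∉ A`):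
if `b ∈ K` done; if `b ∉ K` and `a ∈ K` take `q = (a,b)` (`mem_bp`; adjacency because `O' ⊆ (lat d).edgeSet`,
`SimpleGraph.mem_edgeSet`, `(lat d).Adj a b` is `l1 (b - a) = 1` by `Iff.rfl`; `b ∈ ClA .. b` by `self_mem_ClA`);
if `a, b ∉ K`: `a` is in the cluster of some `q.2`, and `s(a,b)` avoids `A ∪ K`, so `b` is too
(`ClA_closed` or `Rch.tail`).
`exit_inf`: otherwise `ClA (ofSet A) O' y ⊆ K ∪ ⋃ q ∈ (bp K ..), (finite sets)` is finite
(`Set.Finite.biUnion`, only over the `q` with `s(q.1,q.2) ∈ O'`). `exit_T`: from `exit_mem`.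
`thA` facts: `mono`: `(ofSet S').rem O ⊆ (ofSet S).rem O` for `S ⊆ S'`, and if `y ∈ S'` the left side is `0`
(`ClA` empty); `shift`: translation invariance (`Pr_act (trI a)`, `Rch_rem_act`, `trI_aut` from P/Act, see
`theta_shift` there); `dep`: `DependsOn (fun ω => (ClA (ofSet S) (opn p ω) v).Infinite) (tI K)ᶜ` if `K ⊆ S`
(`dep_rem_ofSet` with the set `S` and then `DependsOn.mono`, or directly from `rem_ofSet` and `dep_opn`).
-/

set_option autoImplicit false
open MeasureTheory Filter Topology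
open scoped ENNReal BigOperators

namespace Pool.Agent.PB

variable {d : ℕ}

theorem exit_mem {O' : Set (Sym2 (V d))} (hO' : O' ⊆ (lat d).edgeSet) {A : Set (V d)} {y : V d}
    {K : Finset (V d)} (hyK : y ∈ K) (hKA : Disjoint (K : Set (V d)) A) {z : V d}
    (hz : z ∈ ClA (Del.ofSet A) O' y) (hzK : z ∉ K) :
    ∃ q ∈ bp K (Del.ofSet A), s(q.1, q.2) ∈ O' ∧ z ∈ ClA (Del.ofSet (A ∪ K)) O' q.2 := by
  have key : ∀ w, Rch ((Del.ofSet A).rem O') y w → w ∈ K ∨
      ∃ q ∈ bp K (Del.ofSet A), s(q.1, q.2) ∈ O' ∧ w ∈ ClA (Del.ofSet (A ∪ K)) O' q.2 := by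
    intro w hw
    induction hw with
    | refl => exact Or.inl hyK
    | @tail a b _ hab ih =>
      by_cases hb : b ∈ K
      · exact Or.inl hb
      · right
        have haA : a ∉ A := hab.2.2 a (Sym2.mem_mk_left a b)
        have hbA : b ∉ A := hab.2.2 b (Sym2.mem_mk_right a b)
        have hbU : b ∉ A ∪ (K : Set (V d)) := by
          rintro (h | h)
          · exact hbA h
          · exact hb h
        by_cases ha : a ∈ K
        · refine ⟨(a, b), ?_, hab.1, ?_⟩
          · rw [mem_bp]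
            refine ⟨ha, hb, hbA, fun h => h, ?_⟩
            have h1 := hO' hab.1
            rwa [SimpleGraph.mem_edgeSet] at h1
          · exact self_mem_ClA (A := Del.ofSet (A ∪ (K : Set (V d)))) hbU
        · rcases ih with h | ⟨q, hq, h1, h2⟩
          · exact absurd h ha
          · refine ⟨q, hq, h1, h2.1, h2.2.tail ⟨hab.1, fun h => h, ?_⟩⟩
            intro x hx
            rcases Sym2.mem_iff.1 hx with rfl | rfl
            · rintro (h | h)
              · exact haA h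
              · exact ha h
            · exact hbU
  rcases key z hz.2 with h | h
  · exact absurd h hzK
  · exact h

theorem exit_inf {O' : Set (Sym2 (V d))} (hO' : O' ⊆ (lat d).edgeSet) {A : Set (V d)} {y : V d}
    {K : Finset (V d)} (hyK : y ∈ K) (hKA : Disjoint (K : Set (V d)) A)
    (h : (ClA (Del.ofSet A) O' y).Infinite) :
    ∃ q ∈ bp K (Del.ofSet A), s(q.1, q.2) ∈ O' ∧ (ClA (Del.ofSet (A ∪ K)) O' q.2).Infinite := by
  classical
  by_contra hcon
  push Not at hcon
  apply h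
  have hfin : ((K : Set (V d)) ∪ ⋃ q ∈ (bp K (Del.ofSet A)).filter (fun q => s(q.1, q.2) ∈ O'),
      ClA (Del.ofSet (A ∪ (K : Set (V d)))) O' q.2).Finite := by
    refine K.finite_toSet.union ?_
    refine Set.Finite.biUnion (Finset.finite_toSet _) ?_
    intro q hq
    obtain ⟨h1, h2⟩ := Finset.mem_filter.1 (Finset.mem_coe.1 hq)
    exact hcon q h1 h2
  refine hfin.subset ?_
  intro z hz
  by_cases hzK : z ∈ K
  · exact Or.inl hzK
  · obtain ⟨q, hq, h1, h2⟩ := exit_mem hO' hyK hKA hz hzK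
    right
    simp only [Set.mem_iUnion, exists_prop]
    exact ⟨q, Finset.mem_filter.2 ⟨hq, h1⟩, h2⟩

theorem exit_T {O' : Set (Sym2 (V d))} (hO' : O' ⊆ (lat d).edgeSet) {A : Set (V d)} {y : V d}
    {K : Finset (V d)} (hyK : y ∈ K) (hKA : Disjoint (K : Set (V d)) A) {T : Set (V d)}
    (h : RchA (Del.ofSet A) O' y T) :
    (∃ t ∈ T, t ∈ K) ∨
      ∃ q ∈ bp K (Del.ofSet A), s(q.1, q.2) ∈ O' ∧ RchA (Del.ofSet (A ∪ K)) O' q.2 T := by
  obtain ⟨t, ht, hty⟩ := h
  by_cases htK : t ∈ K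
  · exact Or.inl ⟨t, ht, htK⟩
  · obtain ⟨q, hq, h1, h2⟩ := exit_mem hO' hyK hKA hty htK
    exact Or.inr ⟨q, hq, h1, t, ht, h2⟩

theorem ClA_anti_set {S S' : Set (V d)} (h : S ⊆ S') (O : Set (Sym2 (V d))) (y : V d) :
    ClA (Del.ofSet S') O y ⊆ ClA (Del.ofSet S) O y := by
  rintro x ⟨h1, h2⟩
  refine ⟨fun hy => h1 (h hy), h2.mono ?_⟩
  intro e he
  exact ⟨he.1, fun h => h, fun z hz hzS => he.2.2 z hz (h hzS)⟩

/-- off a bigger set the probability is smaller -/
theorem thA_mono_set (p : ℝ) {S S' : Set (V d)} (h : S ⊆ S') (y : V d) :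
    thA p (Del.ofSet S') y ≤ thA p (Del.ofSet S) y :=
  measure_mono fun _ hω => Set.Infinite.mono (ClA_anti_set h _ y) hω

theorem thA_le_theta (p : ℝ) (S : Set (V d)) (y : V d) : thA p (Del.ofSet S) y ≤ theta d p := by
  rw [← theta_shift p y]
  exact measure_mono fun _ hω => Set.Infinite.mono (ClA_subset_Cl _ _ y) hω

theorem ClA_empty (O : Set (Sym2 (V d))) (y : V d) : ClA (Del.ofSet (∅ : Set (V d))) O y = Cl O y := by
  have h : (Del.ofSet (∅ : Set (V d))).rem O = O := by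
    ext e
    exact ⟨fun he => he.1, fun he => ⟨he, fun h => h, fun _ _ h => h⟩⟩
  ext x
  rw [mem_ClA, h]
  exact ⟨fun hx => hx.2, fun hx => ⟨fun h => h, hx⟩⟩

theorem thA_D0 (p : ℝ) (y : V d) : thA p (Del.ofSet ∅) y = theta d p := by
  rw [← theta_shift p y]
  unfold thA
  simp only [ClA_empty]

/-- translation invariance -/
theorem thA_shift (p : ℝ) (S : Set (V d)) (y z : V d) :
    thA p (Del.ofSet ((fun x => x + z) '' S)) (y + z) = thA p (Del.ofSet S) y := by
  unfold thA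
  rw [← Pr_act (trI z) {ω | (ClA (Del.ofSet S) (opn p ω) y).Infinite}]
  congr 1
  ext ω
  simp only [Set.mem_ofPred_eq]
  have himg : (Del.ofSet S).img (trI z) = Del.ofSet ((fun x => x + z) '' S) := by
    unfold Del.img Del.ofSet
    simp only [Set.image_empty]
    rfl
  have : ClA (Del.ofSet S) (opn p (act (trI z) ω)) y =
      (trI z) ⁻¹' ClA (Del.ofSet ((fun x => x + z) '' S)) (opn p ω) (y + z) := by
    ext x
    simp only [Set.mem_preimage, mem_ClA]
    rw [Rch_rem_act (trI_aut z), himg]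
    refine and_congr ?_ Iff.rfl
    refine not_congr ?_
    show y ∈ S ↔ y + z ∈ (fun x => x + z) '' S
    constructor
    · intro h; exact ⟨y, h, rfl⟩
    · rintro ⟨w, hw, h⟩
      have h' : w + z = y + z := h
      rwa [add_right_cancel h'] at hw
  rw [this]
  constructor
  · intro h
    exact h.preimage (by rw [(trI z).surjective.range_eq]; exact Set.subset_univ _)
  · intro h hf
    exact h (hf.preimage (trI z).injective.injOn)

theorem measurableSet_clA_inf (p : ℝ) (A : Del (V d)) (y : V d) :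
    MeasurableSet {ω : Om d | (ClA A (opn p ω) y).Infinite} :=
  ((opn_MES p).clA A y).infinite

theorem dep_clA_inf (p : ℝ) {K S : Set (V d)} (h : K ⊆ S) (v : V d) :
    DependsOn (fun ω : Om d => (ClA (Del.ofSet S) (opn p ω) v).Infinite) (tI K)ᶜ := by
  have h1 : DependsOn (fun ω : Om d => (ClA (Del.ofSet S) (opn p ω) v).Infinite) (tI S)ᶜ := by
    have h2 := dep_rem_ofSet (d := d) p 0 0 S (fun O _ _ => ({x | v ∉ S ∧ Rch O v x} : Set (V d)).Infinite)
    exact h2
  refine h1.mono ?_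
  rw [Set.compl_subset_compl]
  rintro i (⟨e, ⟨x, hx, hxK⟩, rfl⟩ | ⟨w, hw, b, rfl⟩)
  · exact Or.inl ⟨e, ⟨x, hx, h hxK⟩, rfl⟩
  · exact Or.inr ⟨w, h hw, b, rfl⟩

end Pool.Agent.PB
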