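import Pool.Agent.PB.Spr.Spr
import Pool.Agent.PB.Spr.Exit
import Pool.Agent.PB.P.Expl
import Pool.Agent.PB.P.Conv

/-!
PB-SPR-UpM (Section 9.2).  `M(p,h) ≤ M(p_c, h + 2d ε'' M(p,h))`, `ε'' = epp d p`.

Plan. `C ω = Cl (Oc ω) 0` (finite a.s. since `theta (pc) = 0`), `EvK D0 0 K = {C = K}` where
`D0 = Del.ofSet ∅` (`ClA (ofSet ∅) O y = Cl O y`: prove a small lemma). For `h > 0`:
`Mg d p h = Σ_K Pr ({C = K} ∩ {RchT (opn p ω) 0 (ghost false h ω)})` (`Pr_split_fin`).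
`exit_T` with `A = ∅`, `O' = opn p ω`, `T = ghost false h ω`: on `{C = K}` the event implies that
`K ∩ ghost ≠ ∅` or `ω ∈ hitB K (ofSet ∅) G p`, `G q = {ω | RchA (ofSet (∅ ∪ K)) (opn p ω) q.2 (ghost false h ω)}`
(`dep_RchA_ghost`). So with `F = {ω | ∀ v ∈ K, v ∉ ghost false h ω}` (depends on `inI K`, `Pr F = exp (-h |K|)`,
`Pr_ghost_fin`), the event `∩ EvK` is contained in `EvK \ (F ∩ EvK ∩ hitBᶜ)`, and
`Pr (F ∩ EvK ∩ hitBᶜ) = Pr (F ∩ EvK) - Pr (F ∩ (EvK ∩ hitB)) = Pr (F ∩ EvK) * ∫⁻ ofReal (exp (-(epp * nB)))` (`spr_ev`;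
`Pr (F ∩ EvK) = Pr F * Pr EvK` because `EvK` depends on the edge labels only: `Pr_inter_dep` with the index sets
`{inr ..}` / `{inl ..}`) and `∫⁻ ofReal (exp (-(epp * nB))) ≥ ofReal (exp (-(epp * Σ_q Pr (G q))))` (from `jensen_V`,
`∫⁻ ofReal (1 - e^..) = 1 - ∫⁻ ofReal (e^..)`, or repeat its proof), and
`Σ_{q ∈ bp K} (Pr (G q)).toReal ≤ |bp K| * Mr d p h ≤ 2 d |K| Mr d p h` (`Mg_shift`, `RchA .. ⊆ RchT`; `card (bp K _) ≤ card K * card (U1 d)`,
`card_U1` in P/Conv; import it). Hence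
`Pr ({C=K} ∩ ..) ≤ Pr {C = K} * ofReal (1 - exp (-((h + 2 d epp Mr) |K|)))`, and the sum over `K` is
`∫⁻ (1 - ex h' (Cl (Oc ω) 0)) = Mg d (pc d) h'` (`Mg_eq`, `lintegral_split_fin`, `ex_finset`).
-/

set_option autoImplicit false
open MeasureTheory Filter Topology
open scoped ENNReal BigOperators

namespace Pool.Agent.PB

variable {d : ℕ}

private theorem upm_ClA (O : Set (Sym2 (V d))) (y : V d) : ClA (Del.ofSet ∅) O y = Cl O y := by
  have h1 : (Del.ofSet (∅ : Set (V d))).rem O = O := by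
    rw [rem_ofSet]
    ext e
    simp [touch]
  ext x
  rw [mem_ClA, h1]
  constructor
  · exact fun h => h.2
  · exact fun h => ⟨fun h' => h', h⟩

private theorem upm_card (K : Finset (V d)) (A : Del (V d)) : (bp K A).card ≤ K.card * (2 * d) := by
  classical
  unfold bp
  refine (Finset.card_filter_le _ _).trans (Finset.card_image_le.trans ?_)
  rw [Finset.card_product, card_U1]

private theorem upm_F_dep (h : ℝ) (K : Finset (V d)) (S : Set (Ix d)) (hS : ∀ v ∈ K, Sum.inr (v, false) ∈ S) :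
    DependsOn (fun ω : Om d => ω ∈ {ω : Om d | ∀ v ∈ K, v ∉ ghost false h ω}) S := by
  intro ω ω' hω
  show (∀ v ∈ K, v ∉ ghost false h ω) = (∀ v ∈ K, v ∉ ghost false h ω')
  refine propext (forall₂_congr fun v hv => ?_)
  simp only [ghost, Set.mem_ofPred_eq, hω _ (hS v hv)]

private theorem upm_F_meas (h : ℝ) (K : Finset (V d)) :
    MeasurableSet {ω : Om d | ∀ v ∈ K, v ∉ ghost false h ω} := by
  have h1 : {ω : Om d | ∀ v ∈ K, v ∉ ghost false h ω} = ⋂ v ∈ K, {ω : Om d | v ∈ ghost false h ω}ᶜ := by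
    ext ω; simp
  rw [h1]
  exact MeasurableSet.biInter K.countable_toSet fun v _ => (ghost_MVS false h v).compl

private theorem upm_G (p h : ℝ) (K : Set (V d)) (y : V d) :
    (Pr d {ω : Om d | RchA (Del.ofSet K) (opn p ω) y (ghost false h ω)}).toReal ≤ Mr d p h := by
  unfold Mr
  refine ENNReal.toReal_mono (measure_ne_top _ _) ?_
  rw [← Mg_shift p h y]
  refine measure_mono ?_
  rintro ω ⟨t, ht, h1⟩
  exact ⟨t, ht, ClA_subset_Cl _ _ _ h1⟩

private theorem upm_K (hC : Crit d) {p h : ℝ} (hp : pc d ≤ p) (hp1 : p < 1)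
    (hh : 0 < h) {K : Finset (V d)} (hK : (0 : V d) ∈ K) :
    Pr d ({ω : Om d | Cl (opn (pc d) ω) (0 : V d) = (K : Set (V d))} ∩
      {ω | RchT (opn p ω) 0 (ghost false h ω)}) ≤
    (1 - ENNReal.ofReal (Real.exp (-((h + 2 * d * epp d p * Mr d p h) * (K.card : ℝ))))) *
      Pr d {ω : Om d | Cl (opn (pc d) ω) (0 : V d) = (K : Set (V d))} := by
  classical
  have hepp := epp_nonneg hC.pc_lt hp hp1
  have hMr : 0 ≤ Mr d p h := ENNReal.toReal_nonneg
  obtain ⟨E, hE⟩ : ∃ E, E = EvK (Del.ofSet ∅) (0 : V d) K := ⟨_, rfl⟩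
  obtain ⟨F, hF⟩ : ∃ F, F = {ω : Om d | ∀ v ∈ K, v ∉ ghost false h ω} := ⟨_, rfl⟩
  obtain ⟨G, hG⟩ : ∃ G : V d × V d → Set (Om d), G = fun q =>
    {ω | RchA (Del.ofSet (K : Set (V d))) (opn p ω) q.2 (ghost false h ω)} := ⟨_, rfl⟩
  obtain ⟨H, hH⟩ : ∃ H, H = hitB K (Del.ofSet ∅) G p := ⟨_, rfl⟩
  have hE2 : {ω : Om d | Cl (opn (pc d) ω) (0 : V d) = (K : Set (V d))} = E := by
    rw [hE]
    ext ω
    show Cl (opn (pc d) ω) 0 = (K : Set (V d)) ↔ ClA (Del.ofSet ∅) (opn (pc d) ω) 0 = (K : Set (V d))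
    rw [upm_ClA]
  have hEm : MeasurableSet E := by rw [hE]; exact measurableSet_EvK _ _ _
  have hFm : MeasurableSet F := by rw [hF]; exact upm_F_meas h K
  have hGm : ∀ q, MeasurableSet (G q) := by
    intro q
    rw [hG]
    exact (opn_MES p).rchA (ghost_MVS false h) _ _
  have hHm : MeasurableSet H := by rw [hH]; exact hitB_meas K _ hGm p
  have hGd : ∀ q, DependsOn (fun ω => ω ∈ G q) (tI (K : Set (V d)))ᶜ := by
    intro q
    rw [hG]
    exact dep_RchA_ghost p h false q.2 (K : Set (V d))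
  have hFd : DependsOn (fun ω => ω ∈ F) (inI (K : Set (V d))) := by
    rw [hF]
    exact upm_F_dep h K _ fun v hv => Or.inr ⟨v, hv, false, rfl⟩
  have hyA : (0 : V d) ∉ (Del.ofSet (∅ : Set (V d))).S := fun h => h
  have hKA : Disjoint (K : Set (V d)) (Del.ofSet (∅ : Set (V d))).S := Set.disjoint_empty _
  -- sprinkling
  have key : Pr d (F ∩ (E ∩ H)) = Pr d (F ∩ E) *
      ∫⁻ ω, ENNReal.ofReal (1 - Real.exp (-(epp d p * (nB K (Del.ofSet ∅) G ω : ℝ)))) ∂Pr d := by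
    rw [hE, hH]
    refine spr_ev hC.pc_pos.le hC.pc_lt hp hp1 hyA hK hKA (S := inI (K : Set (V d))) subset_rfl
      (T := (tI (K : Set (V d)))ᶜ) (Set.disjoint_left.2 fun i hi h => h (inI_subset_tI _ hi)) ?_ ?_ hFm hFd hGm hGd
    · rintro q hq (⟨e, he, h⟩ | ⟨v, hv, b, h⟩)
      · have h1 : s(q.1, q.2) = e := Sum.inl_injective h
        have h2 := he q.2 (by rw [← h1]; exact Sym2.mem_mk_right _ _)
        exact (mem_bp.1 hq).2.1 h2
      · cases h
    · exact fun q hq h => h (inl_mem_tI.2 (mem_touch_left (mem_bp.1 hq).1))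
  -- Jensen
  have hS : ∑ q ∈ bp K (Del.ofSet ∅), (Pr d (G q)).toReal ≤ 2 * d * K.card * Mr d p h := by
    have h1 : ∑ q ∈ bp K (Del.ofSet ∅), (Pr d (G q)).toReal ≤ ∑ _q ∈ bp K (Del.ofSet ∅), Mr d p h := by
      refine Finset.sum_le_sum fun q _ => ?_
      rw [hG]
      exact upm_G p h _ q.2
    rw [Finset.sum_const, nsmul_eq_mul] at h1
    refine h1.trans ?_
    refine mul_le_mul_of_nonneg_right ?_ hMr
    have h2 : ((bp K (Del.ofSet ∅)).card : ℝ) ≤ ((K.card * (2 * d) : ℕ) : ℝ) := by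
      exact_mod_cast upm_card K (Del.ofSet ∅)
    push_cast at h2
    linarith
  have hJ : ∫⁻ ω, ENNReal.ofReal (1 - Real.exp (-(epp d p * (nB K (Del.ofSet ∅) G ω : ℝ)))) ∂Pr d ≤
      1 - ENNReal.ofReal (Real.exp (-(2 * d * epp d p * Mr d p h * (K.card : ℝ)))) := by
    refine (jensen_V K (Del.ofSet ∅) hGm hepp).trans ?_
    rw [ENNReal.ofReal_sub _ (Real.exp_pos _).le, ENNReal.ofReal_one]
    refine tsub_le_tsub_left (ENNReal.ofReal_le_ofReal (Real.exp_le_exp.2 (neg_le_neg ?_))) _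
    calc epp d p * ∑ q ∈ bp K (Del.ofSet ∅), (Pr d (G q)).toReal ≤ epp d p * (2 * d * K.card * Mr d p h) :=
          mul_le_mul_of_nonneg_left hS hepp
      _ = 2 * d * epp d p * Mr d p h * (K.card : ℝ) := by ring
  -- independence
  have hFE : Pr d (F ∩ E) = ENNReal.ofReal (Real.exp (-(h * (K.card : ℝ)))) * Pr d E := by
    have h1 : Pr d (F ∩ E) = Pr d F * Pr d E := by
      refine Pr_inter_dep (S := gI d false) (T := (gI d false)ᶜ) disjoint_compl_right hFm hEm ?_ ?_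
      · rw [hF]
        exact upm_F_dep h K _ fun v _ => ⟨v, rfl⟩
      · rw [← hE2]
        have h2 := dep_comp (dep_Cl_opn_gI (d := d) (pc d) 0 false) (fun C => C = (K : Set (V d)))
        exact h2
    rw [h1, hF, Pr_ghost_fin false hh.le K]
  -- the inclusion
  have hsub : E ∩ {ω | RchT (opn p ω) 0 (ghost false h ω)} ⊆ (F ∩ (E ∩ Hᶜ))ᶜ := by
    rintro ω ⟨hωE, t, ht, hωR⟩ ⟨hωF, -, hωH⟩
    have hO : opn p ω ⊆ (lat d).edgeSet := fun e he => he.1
    have h1 : RchA (Del.ofSet (∅ : Set (V d))) (opn p ω) 0 (ghost false h ω) :=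
      ⟨t, ht, by rw [upm_ClA]; exact hωR⟩
    rcases exit_T hO hK (Set.disjoint_empty _) h1 with ⟨t, ht, htK⟩ | ⟨q, hq, hqo, hqR⟩
    · rw [hF] at hωF
      exact hωF t htK ht
    · apply hωH
      rw [hH]
      refine ⟨q, hq, ?_, hqo.2⟩
      rw [hG]
      rw [Set.empty_union] at hqR
      exact hqR
  have hfin : Pr d (F ∩ (E ∩ Hᶜ)) = Pr d (F ∩ E) - Pr d (F ∩ (E ∩ H)) := by
    have h1 : F ∩ (E ∩ Hᶜ) = (F ∩ E) \ (F ∩ (E ∩ H)) := by
      ext ω
      simp only [Set.mem_inter_iff, Set.mem_compl_iff, Set.mem_sdiff]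
      tauto
    rw [h1, measure_sdiff (Set.inter_subset_inter_right F Set.inter_subset_left)
      (hFm.inter (hEm.inter hHm)).nullMeasurableSet (measure_ne_top _ _)]
  have hlow : ENNReal.ofReal (Real.exp (-((h + 2 * d * epp d p * Mr d p h) * (K.card : ℝ)))) * Pr d E ≤
      Pr d (F ∩ (E ∩ Hᶜ)) := by
    rw [hfin, key]
    have h1 : Pr d (F ∩ E) - Pr d (F ∩ E) *
        (∫⁻ ω, ENNReal.ofReal (1 - Real.exp (-(epp d p * (nB K (Del.ofSet ∅) G ω : ℝ)))) ∂Pr d) ≥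
        Pr d (F ∩ E) * ENNReal.ofReal (Real.exp (-(2 * d * epp d p * Mr d p h * (K.card : ℝ)))) := by
      have h2 : Pr d (F ∩ E) - Pr d (F ∩ E) *
        (∫⁻ ω, ENNReal.ofReal (1 - Real.exp (-(epp d p * (nB K (Del.ofSet ∅) G ω : ℝ)))) ∂Pr d) =
        Pr d (F ∩ E) * (1 -
        (∫⁻ ω, ENNReal.ofReal (1 - Real.exp (-(epp d p * (nB K (Del.ofSet ∅) G ω : ℝ)))) ∂Pr d)) := by
        rw [ENNReal.mul_sub (fun _ _ => measure_ne_top _ _), mul_one]
      rw [h2]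
      refine mul_le_mul_right ?_ _
      have hx : ENNReal.ofReal (Real.exp (-(2 * d * epp d p * Mr d p h * (K.card : ℝ)))) ≤ 1 := by
        rw [← ENNReal.ofReal_one]
        refine ENNReal.ofReal_le_ofReal (Real.exp_le_one_iff.2 ?_)
        have : 0 ≤ 2 * d * epp d p * Mr d p h * (K.card : ℝ) := by positivity
        linarith
      refine ENNReal.le_sub_of_add_le_right (ne_top_of_le_ne_top ENNReal.one_ne_top (hJ.trans tsub_le_self)) ?_
      calc _ ≤ ENNReal.ofReal (Real.exp (-(2 * d * epp d p * Mr d p h * (K.card : ℝ)))) +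
            (1 - ENNReal.ofReal (Real.exp (-(2 * d * epp d p * Mr d p h * (K.card : ℝ))))) :=
            add_le_add le_rfl hJ
        _ = 1 := add_tsub_cancel_of_le hx
    refine le_trans (le_of_eq ?_) h1
    rw [hFE]
    have e1 : Real.exp (-((h + 2 * d * epp d p * Mr d p h) * (K.card : ℝ))) =
        Real.exp (-(h * (K.card : ℝ))) * Real.exp (-(2 * d * epp d p * Mr d p h * (K.card : ℝ))) := by
      rw [← Real.exp_add]
      congr 1
      ring
    rw [e1, ENNReal.ofReal_mul (Real.exp_pos _).le]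
    ring
  rw [hE2]
  have hadd : Pr d (E ∩ {ω | RchT (opn p ω) 0 (ghost false h ω)}) + Pr d (F ∩ (E ∩ Hᶜ)) ≤ Pr d E := by
    rw [← measure_union (Set.disjoint_left.2 fun ω h1 h2 => hsub h1 h2) (hFm.inter (hEm.inter hHm.compl))]
    refine measure_mono ?_
    rintro ω (⟨h1, -⟩ | ⟨-, h1, -⟩)
    · exact h1
    · exact h1
  rw [ENNReal.sub_mul (fun _ _ => measure_ne_top _ _), one_mul]
  refine ENNReal.le_sub_of_add_le_right ?_ ((add_le_add le_rfl hlow).trans hadd)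
  exact ENNReal.mul_ne_top ENNReal.ofReal_ne_top (measure_ne_top _ _)

theorem Mg_le_Mg (hC : Crit d) (h5 : theta d (pc d) = 0) {p h : ℝ} (hp : pc d ≤ p) (hp1 : p < 1)
    (hh : 0 < h) : Mg d p h ≤ Mg d (pc d) (h + 2 * d * epp d p * Mr d p h) := by
  have hepp := epp_nonneg hC.pc_lt hp hp1
  have hMr : 0 ≤ Mr d p h := ENNReal.toReal_nonneg
  have hh' : 0 < h + 2 * d * epp d p * Mr d p h := by positivity
  have hCm := (opn_MES (d := d) (pc d)).cl (0 : V d)
  have h0 : Pr d {ω : Om d | (Cl (opn (pc d) ω) (0 : V d)).Infinite} = 0 := h5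
  have hRm : MeasurableSet {ω : Om d | RchT (opn p ω) 0 (ghost false h ω)} :=
    (opn_MES p).rchT (ghost_MVS false h) 0
  rw [Mg_eq (pc d) hh', lintegral_split_fin hCm h0]
  unfold Mg
  rw [Pr_split_fin hCm h0 hRm]
  refine ENNReal.tsum_le_tsum fun K => ?_
  have h1 : ∫⁻ ω in {ω : Om d | Cl (opn (pc d) ω) (0 : V d) = (K : Set (V d))},
      (1 - ex (h + 2 * d * epp d p * Mr d p h) (Cl (opn (pc d) ω) (0 : V d))) ∂Pr d =
      (1 - ENNReal.ofReal (Real.exp (-((h + 2 * d * epp d p * Mr d p h) * (K.card : ℝ))))) *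
      Pr d {ω : Om d | Cl (opn (pc d) ω) (0 : V d) = (K : Set (V d))} := by
    rw [← setLIntegral_const]
    refine setLIntegral_congr_fun (hCm.eq_set _) fun ω hω => ?_
    have hω' : Cl (opn (pc d) ω) (0 : V d) = (K : Set (V d)) := hω
    show 1 - ex (h + 2 * d * epp d p * Mr d p h) (Cl (opn (pc d) ω) (0 : V d)) = _
    rw [hω', ex_finset]
  rw [h1]
  by_cases hK : (0 : V d) ∈ K
  · exact upm_K hC hp hp1 hh hK
  · have h2 : {ω : Om d | Cl (opn (pc d) ω) (0 : V d) = (K : Set (V d))} = ∅ := by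
      ext ω
      simp only [Set.mem_ofPred_eq, Set.mem_empty_iff_false, iff_false]
      intro h3
      apply hK
      have h4 : (0 : V d) ∈ Cl (opn (pc d) ω) 0 := Rch.refl _ _
      rw [h3] at h4
      exact h4
    rw [h2, Set.empty_inter, measure_empty]
    exact zero_le

end Pool.Agent.PB
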