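import Pool.Agent.PB.Spr.Asq
import Pool.Agent.PB.Spr.UpM

/-!
PB-SPR-MReal (Section 9.2).  The bounds `M_le`, `th_le`, `tail_le` of `Out9`.

Plan. `Out5.bounds`: `M(p_c,h) ≤ C √h` for `0 < h ≤ 1`, and `M ≤ 1 ≤ C √h` for `h > 1` (`C ≥ 1`; `Mr ≤ 1` because it is a
probability). `Mg_le_Mg` gives `M ≤ C √(h + 2 d ε'' M)` for `M = Mr d p h`, `p < 1`; for `ε = p - p_c ≤ (1-p_c)/2`:
`ε'' ≤ 2 ε/(1-p_c)` (`epp_le_two`). From `M ≤ C √(a + b M)`: `M^2 ≤ C^2 a + C^2 b M`, so `M ≤ C √a + C^2 b`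
(otherwise `M^2 = M·M > (C√a + C²b) M ≥ ...`; nlinarith or direct). For `ε > (1-p_c)/2` (also `p = 1`): `M ≤ 1 ≤ (2/(1-p_c)) ε`.
`th_le`: `θ(p) ≤ M(p,h)` for every `h > 0` (an infinite cluster meets `G_h` a.s.: `Mg_eq` and `ex_inf`: the integrand
`1 - ex h (Cl ..)` is `1` on the event; so `Mg ≥ Pr {infinite}`), then let `h → 0` (`√h → 0`; e.g. `le_of_forall_pos_le_add`).
`tail_le`: `Mg_eq` with `h = 1/n`: on `{n ≤ encard}` the integrand is `≥ 1 - e^{-1}`, so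
`(1 - e^{-1}) P(|C| ≥ n) ≤ M(p,1/n) ≤ C (√(1/n) + ε)`; `√(1/n) = 1/√n`.
-/

set_option autoImplicit false
open MeasureTheory Filter Topology
open scoped ENNReal BigOperators

namespace Pool.Agent.PB

variable {d : ℕ}


theorem mreal_le_one (p h : ℝ) : Mr d p h ≤ 1 := by
  unfold Mr Mg
  exact ENNReal.toReal_le_of_le_ofReal zero_le_one (by rw [ENNReal.ofReal_one]; exact prob_le_one)

theorem mreal_nonneg (p h : ℝ) : 0 ≤ Mr d p h := ENNReal.toReal_nonneg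

theorem mreal_quad {M C a c : ℝ} (hM : 0 ≤ M) (hC : 0 ≤ C) (ha : 0 ≤ a) (hc : 0 ≤ c)
    (h : M ≤ C * Real.sqrt (a + c * M)) : M ≤ C * Real.sqrt a + C ^ 2 * c := by
  by_contra hcon
  rw [not_le] at hcon
  have hs : 0 ≤ Real.sqrt a := Real.sqrt_nonneg a
  have hsa : Real.sqrt a ^ 2 = a := Real.sq_sqrt ha
  have h0 : 0 ≤ a + c * M := by positivity
  have h1 : M ^ 2 ≤ C ^ 2 * (a + c * M) := by
    calc M ^ 2 ≤ (C * Real.sqrt (a + c * M)) ^ 2 := pow_le_pow_left₀ hM h 2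
      _ = C ^ 2 * (a + c * M) := by rw [mul_pow, Real.sq_sqrt h0]
  have hCs : 0 ≤ C * Real.sqrt a := by positivity
  have hCc : 0 ≤ C ^ 2 * c := by positivity
  have h2 : C * Real.sqrt a < M := by linarith
  have hMpos : 0 < M := lt_of_le_of_lt hCs h2
  have h3 : (C * Real.sqrt a + C ^ 2 * c) * M < M * M := mul_lt_mul_of_pos_right hcon hMpos
  have h4 : C * Real.sqrt a * (C * Real.sqrt a) ≤ C * Real.sqrt a * M :=
    mul_le_mul_of_nonneg_left h2.le hCs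
  have h5 : C * Real.sqrt a * (C * Real.sqrt a) = C ^ 2 * a := by
    calc C * Real.sqrt a * (C * Real.sqrt a) = C ^ 2 * Real.sqrt a ^ 2 := by ring
      _ = C ^ 2 * a := by rw [hsa]
  nlinarith

theorem out9_M_le (hC : Crit d) (h5 : Out5 d) :
    ∃ C : ℝ, 1 ≤ C ∧ ∀ p h : ℝ, pc d ≤ p → p ≤ 1 → 0 < h → h ≤ 1 →
      Mr d p h ≤ C * (Real.sqrt h + (p - pc d)) := by
  obtain ⟨C0, hC0, hb⟩ := h5.bounds
  have hpc := hC.pc_lt
  have hgap : 0 < 1 - pc d := by linarith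
  set k : ℝ := 2 / (1 - pc d) with hk
  have hk0 : 0 < k := by positivity
  have hC00 : 0 ≤ C0 := by linarith
  refine ⟨C0 + C0 ^ 2 * (2 * d * k) + k, ?_, ?_⟩
  · have : 0 ≤ C0 ^ 2 * (2 * d * k) := by positivity
    linarith
  intro p h hp hp1 hh hh1
  obtain ⟨ε, hε⟩ : ∃ ε, ε = p - pc d := ⟨_, rfl⟩
  have hpe : p = pc d + ε := by rw [hε]; ring
  have hε0 : 0 ≤ ε := by rw [hε]; linarith
  rw [← hε]
  have hsh : 0 ≤ Real.sqrt h := Real.sqrt_nonneg h
  have hB : 0 ≤ C0 ^ 2 * (2 * d * k) := by positivity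
  by_cases hbig : (1 - pc d) / 2 < ε
  · have h1 : (1 : ℝ) ≤ k * ε := by
      have : k * ((1 - pc d) / 2) = 1 := by rw [hk]; field_simp
      calc (1 : ℝ) = k * ((1 - pc d) / 2) := this.symm
        _ ≤ k * ε := mul_le_mul_of_nonneg_left hbig.le hk0.le
    calc Mr d p h ≤ 1 := mreal_le_one p h
      _ ≤ k * ε := h1
      _ ≤ (C0 + C0 ^ 2 * (2 * d * k) + k) * (Real.sqrt h + ε) := by
          have e1 : 0 ≤ (C0 + C0 ^ 2 * (2 * d * k)) * (Real.sqrt h + ε) := by positivity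
          have e2 : 0 ≤ k * Real.sqrt h := by positivity
          nlinarith
  · rw [not_lt] at hbig
    have hp1' : p < 1 := by rw [hpe]; linarith
    have hM := Mg_le_Mg hC h5.theta_pc hp hp1' hh
    set M : ℝ := Mr d p h with hMdef
    have hM0 : 0 ≤ M := mreal_nonneg p h
    have hepp : epp d p ≤ k * ε := by rw [hpe]; exact epp_le_two hpc hε0 hbig
    have hepp0 : 0 ≤ epp d p := by
      rw [hpe]
      refine le_trans ?_ (epp_ge hpc hε0 (by linarith))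
      positivity
    set h' : ℝ := h + 2 * d * epp d p * M with hh'
    have hh'0 : 0 < h' := by
      have : 0 ≤ 2 * (d : ℝ) * epp d p * M := by positivity
      linarith
    have hle : M ≤ Mr d (pc d) h' := by
      rw [hMdef]
      unfold Mr
      exact ENNReal.toReal_mono (measure_ne_top _ _) hM
    have hh'' : h' ≤ h + (2 * d * k * ε) * M := by
      have e1 : 2 * (d : ℝ) * epp d p * M ≤ 2 * (d : ℝ) * (k * ε) * M := by gcongr
      calc h' = h + 2 * (d : ℝ) * epp d p * M := hh'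
        _ ≤ h + 2 * (d : ℝ) * (k * ε) * M := by linarith
        _ = h + (2 * d * k * ε) * M := by ring
    have hs : M ≤ C0 * Real.sqrt h' := by
      by_cases h1 : h' ≤ 1
      · exact hle.trans (hb h' hh'0 h1).1
      · rw [not_le] at h1
        have e1 : 1 ≤ Real.sqrt h' := Real.one_le_sqrt.2 h1.le
        calc M ≤ 1 := mreal_le_one p h
          _ ≤ C0 * Real.sqrt h' := by nlinarith
    have hs2 : M ≤ C0 * Real.sqrt (h + (2 * d * k * ε) * M) :=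
      hs.trans (mul_le_mul_of_nonneg_left (Real.sqrt_le_sqrt hh'') hC00)
    have hq := mreal_quad hM0 hC00 hh.le (by positivity) hs2
    calc M ≤ C0 * Real.sqrt h + C0 ^ 2 * (2 * d * k * ε) := hq
      _ ≤ (C0 + C0 ^ 2 * (2 * d * k) + k) * (Real.sqrt h + ε) := by
          have e1 : 0 ≤ C0 * ε := by positivity
          have e2 : 0 ≤ C0 ^ 2 * (2 * d * k) * Real.sqrt h := by positivity
          have e3 : 0 ≤ k * (Real.sqrt h + ε) := by positivity
          nlinarith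

theorem mreal_theta_le (p : ℝ) {h : ℝ} (hh : 0 < h) : theta d p ≤ Mg d p h := by
  rw [Mg_eq p hh]
  unfold theta
  have hm : MeasurableSet {ω : Om d | (Cl (opn p ω) (0 : V d)).Infinite} :=
    MVS.infinite ((opn_MES (d := d) p).cl 0)
  rw [← lintegral_indicator_one hm]
  refine lintegral_mono fun ω => ?_
  by_cases hω : ω ∈ {ω : Om d | (Cl (opn p ω) (0 : V d)).Infinite}
  · rw [Set.indicator_of_mem hω]
    have h1 : (Cl (opn p ω) (0 : V d)).Infinite := hω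
    show (1 : ℝ≥0∞) ≤ 1 - ex h (Cl (opn p ω) (0 : V d))
    rw [ex_inf h h1, tsub_zero]
  · rw [Set.indicator_of_notMem hω]
    exact zero_le

theorem out9_th_le (hM : ∃ C : ℝ, 1 ≤ C ∧ ∀ p h : ℝ, pc d ≤ p → p ≤ 1 → 0 < h → h ≤ 1 →
      Mr d p h ≤ C * (Real.sqrt h + (p - pc d))) :
    ∃ C : ℝ, 1 ≤ C ∧ ∀ p : ℝ, pc d ≤ p → p ≤ 1 → thr d p ≤ C * (p - pc d) := by
  obtain ⟨C, hC, hb⟩ := hM
  refine ⟨C, hC, ?_⟩
  intro p hp hp1
  refine le_of_forall_pos_le_add fun δ hδ => ?_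
  have hC0 : 0 < C := by linarith
  obtain ⟨h, hh⟩ : ∃ h : ℝ, h = min 1 ((δ / C) ^ 2) := ⟨_, rfl⟩
  have hδC : 0 < δ / C := by positivity
  have hh0 : 0 < h := by rw [hh]; exact lt_min one_pos (by positivity)
  have hh1 : h ≤ 1 := by rw [hh]; exact min_le_left _ _
  have hsq : Real.sqrt h ≤ δ / C := by
    have h2 : h ≤ (δ / C) ^ 2 := by rw [hh]; exact min_le_right _ _
    calc Real.sqrt h ≤ Real.sqrt ((δ / C) ^ 2) := Real.sqrt_le_sqrt h2
      _ = δ / C := Real.sqrt_sq hδC.le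
  have h1 : thr d p ≤ Mr d p h := by
    unfold thr Mr
    exact ENNReal.toReal_mono (measure_ne_top _ _) (mreal_theta_le p hh0)
  calc thr d p ≤ Mr d p h := h1
    _ ≤ C * (Real.sqrt h + (p - pc d)) := hb p h hp hp1 hh0 hh1
    _ ≤ C * (δ / C + (p - pc d)) := by gcongr
    _ = C * (p - pc d) + δ := by field_simp; ring

theorem out9_tail_le (hM : ∃ C : ℝ, 1 ≤ C ∧ ∀ p h : ℝ, pc d ≤ p → p ≤ 1 → 0 < h → h ≤ 1 →
      Mr d p h ≤ C * (Real.sqrt h + (p - pc d))) :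
    ∃ C : ℝ, 1 ≤ C ∧ ∀ (p : ℝ) (n : ℕ), pc d ≤ p → p ≤ 1 → 1 ≤ n →
      (Pr d {ω : Om d | (n : ℕ∞) ≤ (Cl (opn p ω) (0 : V d)).encard}).toReal ≤
        C * (1 / Real.sqrt n + (p - pc d)) := by
  obtain ⟨C, hC, hb⟩ := hM
  refine ⟨2 * C, by linarith, ?_⟩
  intro p n hp hp1 hn
  have hn0 : (0 : ℝ) < n := by exact_mod_cast hn
  have hn1 : (1 : ℝ) ≤ n := by exact_mod_cast hn
  have hh0 : (0 : ℝ) < 1 / n := by positivity
  have hh1 : (1 : ℝ) / n ≤ 1 := by rw [div_le_one hn0]; exact hn1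
  have hexp : Real.exp (-1) ≤ 1 / 2 := by
    have h1 : (2 : ℝ) ≤ Real.exp 1 := by
      have := Real.add_one_le_exp (1 : ℝ)
      linarith
    rw [Real.exp_neg, one_div]
    exact inv_anti₀ (by norm_num) h1
  have hsub : {ω : Om d | (n : ℕ∞) ≤ (Cl (opn p ω) (0 : V d)).encard} ⊆
      {ω : Om d | ENNReal.ofReal (1 / 2) ≤ 1 - ex (1 / (n : ℝ)) (Cl (opn p ω) (0 : V d))} := by
    intro ω hω
    have hω' : (n : ℕ∞) ≤ (Cl (opn p ω) (0 : V d)).encard := hω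
    show ENNReal.ofReal (1 / 2) ≤ 1 - ex (1 / (n : ℝ)) (Cl (opn p ω) (0 : V d))
    have h2 : ex (1 / (n : ℝ)) (Cl (opn p ω) (0 : V d)) ≤ ENNReal.ofReal (1 / 2) := by
      by_cases hf : (Cl (opn p ω) (0 : V d)).Finite
      · rw [ex_fin _ hf]
        refine ENNReal.ofReal_le_ofReal ?_
        refine le_trans (Real.exp_le_exp.2 ?_) hexp
        rw [← hf.cast_ncard_eq] at hω'
        have h3 : n ≤ (Cl (opn p ω) (0 : V d)).ncard := by exact_mod_cast hω'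
        have h4 : (n : ℝ) ≤ ((Cl (opn p ω) (0 : V d)).ncard : ℝ) := by exact_mod_cast h3
        have h5 : (1 : ℝ) ≤ 1 / (n : ℝ) * ((Cl (opn p ω) (0 : V d)).ncard : ℝ) := by
          calc (1 : ℝ) = 1 / (n : ℝ) * n := by field_simp
            _ ≤ _ := mul_le_mul_of_nonneg_left h4 hh0.le
        linarith
      · rw [ex_inf _ hf]; exact zero_le
    calc ENNReal.ofReal (1 / 2) = 1 - ENNReal.ofReal (1 / 2) := by
          rw [← ENNReal.ofReal_one, ← ENNReal.ofReal_sub _ (by norm_num)]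
          norm_num
      _ ≤ 1 - ex (1 / (n : ℝ)) (Cl (opn p ω) (0 : V d)) := tsub_le_tsub_left h2 1
  have hmeas : Measurable (fun ω : Om d => 1 - ex (1 / (n : ℝ)) (Cl (opn p ω) (0 : V d))) :=
    (measurable_ex ((opn_MES (d := d) p).cl 0)).const_sub 1
  have h3 : ENNReal.ofReal (1 / 2) *
      Pr d {ω : Om d | (n : ℕ∞) ≤ (Cl (opn p ω) (0 : V d)).encard} ≤ Mg d p (1 / (n : ℝ)) := by
    rw [Mg_eq p hh0]
    refine le_trans ?_ (mul_meas_ge_le_lintegral hmeas (ENNReal.ofReal (1 / 2)))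
    exact mul_le_mul' le_rfl (measure_mono hsub)
  have h4 : 1 / 2 * (Pr d {ω : Om d | (n : ℕ∞) ≤ (Cl (opn p ω) (0 : V d)).encard}).toReal ≤
      Mr d p (1 / (n : ℝ)) := by
    have := ENNReal.toReal_mono (b := Mg d p (1 / (n : ℝ))) (measure_ne_top _ _) h3
    rw [ENNReal.toReal_mul, ENNReal.toReal_ofReal (by norm_num)] at this
    exact this
  have h5 := hb p (1 / n) hp hp1 hh0 hh1
  have h6 : Real.sqrt (1 / (n : ℝ)) = 1 / Real.sqrt n := by
    rw [Real.sqrt_div zero_le_one, Real.sqrt_one]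
  rw [h6] at h5
  linarith

end Pool.Agent.PB
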