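import Pool.Agent.PB.Spr.Exit
import Pool.Agent.PB.P.Conv
import Pool.Agent.PB.Mix.FunW
import Pool.Agent.PB.Mix.DecompFin

/-!
PB-SPR-StepU (Section 9.3 (b)).  The sum `z_K = Σ_{(x,y') ∈ bp K A} P_p(y' → ∞ off A ∪ K)` is bounded by the local sum.

Plan. Let `O := (Del.ofSet A).rem (Oc ω)`; on `EvK`, `Cl O y = K` (`ClA`, `y ∉ A`). For `q = (x, y') ∈ bp K (ofSet A)`:
`x ∈ K` and `L := Lb R O x = Cl (O ∩ ins (bx R x)) x ⊆ Cl O x = Cl O y = K` (`Cl_mono`, `Cl_eq_of_mem`), a finite set;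
`L0 := Lb0 R O x` = translate of `L` by `-x`, finite, contains `0`, contained in `bx R 0`
(`Lb_finite`, `Lb0_subset`, `zero_mem_Lb0` in Mix/FunW, usable as they are).
`thA p (ofSet (A ∪ K)) y' ≤ thA p (ofSet L) y' = thA p (ofSet L0) (y' - x)` (`thA_mono_set`, `thA_shift`), and by `hU`
(`y' - x ∉ L0` since `y' ∉ K ⊇ L`; `l1 (y' - x) = 1`) its `toReal` is `≤ (t * psi (ofSet L0) (y'-x) + η) * ε`.
Sum over `bp K (ofSet A)`: `bp` is contained in the image of `K ×ˢ U1 d` under `(x,v) ↦ (x, x+v)` (injective), and for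
every `x ∈ K` the terms `v ∈ U1 d` with `v ∉ L0` are `≥ 0` (`hpsi`), so the sum is
`≤ Σ_{x ∈ K} (t * gL (L0 x) + 2 d η) ε` (`gL` is the sum over `v ∈ U1 d`, `v ∉ L`; `card_U1`: `(U1 d).card = 2 * d`), and
`Yf R gL O y = Σ_{x ∈ K} gL (Lb0 R O x)` (`Yf` unfolds to the sum over `h.toFinset`, `(Cl O y).Finite`).
`psiK L v = psi (Del.ofSet ↑L) v` by `rfl`; use `Set.Finite.toFinset` of `L0` and `coe_toFinset` to apply `hU`.
-/

set_option autoImplicit false
open MeasureTheory Filter Topology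
open scoped ENNReal BigOperators

namespace Pool.Agent.PB

variable {d : ℕ}

theorem thA_ne_top (p : ℝ) (A : Del (V d)) (y : V d) : thA p A y ≠ ⊤ := measure_ne_top _ _

theorem zK_le {p t η ε : ℝ} (R : ℕ) (ht : 0 ≤ t) (hη : 0 ≤ η) (hε : 0 ≤ ε)
    (hpsi : ∀ (L : Finset (V d)) (v : V d), v ∉ L → 0 ≤ psiK L v)
    (hU : ∀ L : Finset (V d), (L : Set (V d)) ⊆ bx R 0 → (0 : V d) ∈ L → ∀ v : V d, l1 v = 1 → v ∉ L →
      (thA p (Del.ofSet (L : Set (V d))) v).toReal ≤ (t * psiK L v + η) * ε)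
    (A : Finset (V d)) {y : V d} (hyA : y ∉ A) {K : Finset (V d)} {ω : Om d}
    (hω : ω ∈ EvK (Del.ofSet (A : Set (V d))) y K) :
    ∑ q ∈ bp K (Del.ofSet (A : Set (V d))),
        (thA p (Del.ofSet ((A : Set (V d)) ∪ (K : Set (V d)))) q.2).toReal ≤
      ε * (t * Yf R gL ((Del.ofSet (A : Set (V d))).rem (Oc ω)) y + 2 * d * η * K.card) := by
  classical
  set O : Set (Sym2 (V d)) := (Del.ofSet (A : Set (V d))).rem (Oc ω) with hO
  have hCl : Cl O y = (K : Set (V d)) := by
    have h1 : ClA (Del.ofSet (A : Set (V d))) (Oc ω) y = (K : Set (V d)) := hω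
    rw [← h1]
    ext z
    constructor
    · intro hz
      exact ⟨by simpa [Del.ofSet] using hyA, hz⟩
    · intro hz
      exact hz.2
  -- the finite sets
  have hLsub : ∀ x ∈ K, Lb R O x ⊆ (K : Set (V d)) := by
    intro x hx
    have h1 : x ∈ Cl O y := by rw [hCl]; exact hx
    rw [← hCl, ← Cl_eq_of_mem h1]
    exact Cl_mono Set.inter_subset_left x
  have hL0fin : ∀ x, (Lb0 R O x).Finite := fun x => (Lb_finite R O x).image _
  set F : V d × V d → ℝ := fun q =>
    if q.2 ∉ Lb0 R O q.1 then (t * psi (Del.ofSet (Lb0 R O q.1)) q.2 + η) * ε else 0 with hF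
  have hpsi' : ∀ x v : V d, v ∉ Lb0 R O x → 0 ≤ psi (Del.ofSet (Lb0 R O x)) v := by
    intro x v hv
    have := hpsi (hL0fin x).toFinset v (by simpa using hv)
    simpa [psiK] using this
  have hFnn : ∀ q, 0 ≤ F q := by
    intro q
    simp only [hF]
    split_ifs with h
    · exact le_rfl
    · exact mul_nonneg (add_nonneg (mul_nonneg ht (hpsi' _ _ h)) hη) hε
  have hterm : ∀ q ∈ bp K (Del.ofSet (A : Set (V d))),
      (thA p (Del.ofSet ((A : Set (V d)) ∪ (K : Set (V d)))) q.2).toReal ≤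
        F (q.1, q.2 - q.1) := by
    intro q hq
    obtain ⟨h1, h2, h3, -, h4⟩ := mem_bp.1 hq
    have hnot : q.2 - q.1 ∉ Lb0 R O q.1 := by
      rintro ⟨z, hz, hz2⟩
      have : z = q.2 := by
        have := congrArg (fun w => w + q.1) hz2
        simpa using this
      exact h2 (hLsub _ h1 (this ▸ hz))
    have e1 : (fun x => x + q.1) '' (Lb0 R O q.1) = Lb R O q.1 := by
      unfold Lb0
      rw [Set.image_image]
      simp
    have e2 : thA p (Del.ofSet (Lb R O q.1)) q.2 =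
        thA p (Del.ofSet (Lb0 R O q.1)) (q.2 - q.1) := by
      have := thA_shift p (Lb0 R O q.1) (q.2 - q.1) q.1
      rw [e1] at this
      rw [← this]
      simp
    have e3 : thA p (Del.ofSet ((A : Set (V d)) ∪ (K : Set (V d)))) q.2 ≤
        thA p (Del.ofSet (Lb0 R O q.1)) (q.2 - q.1) := by
      rw [← e2]
      exact thA_mono_set p ((hLsub _ h1).trans Set.subset_union_right) _
    have e4 : (thA p (Del.ofSet (Lb0 R O q.1)) (q.2 - q.1)).toReal ≤
        (t * psi (Del.ofSet (Lb0 R O q.1)) (q.2 - q.1) + η) * ε := by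
      have := hU (hL0fin q.1).toFinset (by simpa using Lb0_subset R O q.1)
        (by simpa using zero_mem_Lb0 R O q.1) (q.2 - q.1) h4 (by simpa using hnot)
      simpa [psiK] using this
    have e5 : F (q.1, q.2 - q.1) = (t * psi (Del.ofSet (Lb0 R O q.1)) (q.2 - q.1) + η) * ε := by
      simp only [hF]
      rw [if_pos hnot]
    rw [e5]
    exact (ENNReal.toReal_mono (thA_ne_top _ _ _) e3).trans e4
  have hsum1 : ∑ q ∈ bp K (Del.ofSet (A : Set (V d))),
      (thA p (Del.ofSet ((A : Set (V d)) ∪ (K : Set (V d)))) q.2).toReal ≤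
        ∑ q ∈ K ×ˢ U1 d, F q := by
    refine (Finset.sum_le_sum hterm).trans ?_
    have hinj : Set.InjOn (fun q : V d × V d => (q.1, q.2 - q.1))
        (bp K (Del.ofSet (A : Set (V d))) : Set (V d × V d)) := by
      intro a _ b _ hab
      simp only [Prod.mk.injEq] at hab
      refine Prod.ext hab.1 ?_
      have := hab.2
      rw [hab.1] at this
      exact sub_left_injective this
    rw [← Finset.sum_image (f := F) hinj]
    refine Finset.sum_le_sum_of_subset_of_nonneg ?_ (fun q _ _ => hFnn q)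
    intro q hq
    obtain ⟨q', hq', rfl⟩ := Finset.mem_image.1 hq
    obtain ⟨h1, h2, h3, -, h4⟩ := mem_bp.1 hq'
    exact Finset.mem_product.2 ⟨h1, (mem_U1 _).2 h4⟩
  refine hsum1.trans ?_
  rw [Finset.sum_product]
  have hY : Yf R gL O y = ∑ x ∈ K, gL (Lb0 R O x) := by
    have hfin : (Cl O y).Finite := by rw [hCl]; exact K.finite_toSet
    unfold Yf
    rw [dif_pos hfin]
    refine Finset.sum_congr ?_ fun _ _ => rfl
    ext z
    rw [Set.Finite.mem_toFinset, hCl]
    rfl
  have hx : ∀ x ∈ K, ∑ v ∈ U1 d, F (x, v) ≤ ε * (t * gL (Lb0 R O x) + 2 * d * η) := by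
    intro x _
    have e1 : ∑ v ∈ U1 d, F (x, v) ≤ ∑ v ∈ U1 d,
        (ε * (t * (if v ∉ Lb0 R O x then psi (Del.ofSet (Lb0 R O x)) v else 0)) + ε * η) := by
      refine Finset.sum_le_sum fun v _ => ?_
      simp only [hF]
      split_ifs with h
      · have : 0 ≤ ε * η := mul_nonneg hε hη
        simpa using this
      · exact le_of_eq (by ring)
    refine e1.trans (le_of_eq ?_)
    rw [Finset.sum_add_distrib, Finset.sum_const, card_U1, ← Finset.mul_sum, ← Finset.mul_sum]
    unfold gL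
    simp only [nsmul_eq_mul]
    push_cast
    ring
  refine (Finset.sum_le_sum hx).trans (le_of_eq ?_)
  rw [hY, ← Finset.mul_sum, Finset.sum_add_distrib, ← Finset.mul_sum, Finset.sum_const]
  simp only [nsmul_eq_mul]
  ring

/-- the crude bound -/
theorem zK_le_theta (p : ℝ) (A K : Finset (V d)) :
    ∑ q ∈ bp K (Del.ofSet (A : Set (V d))),
        (thA p (Del.ofSet ((A : Set (V d)) ∪ (K : Set (V d)))) q.2).toReal ≤
      2 * d * K.card * thr d p := by
  classical
  have h1 : ∀ q ∈ bp K (Del.ofSet (A : Set (V d))),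
      (thA p (Del.ofSet ((A : Set (V d)) ∪ (K : Set (V d)))) q.2).toReal ≤ thr d p := by
    intro q _
    have hne : theta d p ≠ ⊤ := measure_ne_top _ _
    exact ENNReal.toReal_mono hne (thA_le_theta _ _ _)
  refine (Finset.sum_le_card_nsmul _ _ _ h1).trans ?_
  have h2 : (bp K (Del.ofSet (A : Set (V d)))).card ≤ K.card * (2 * d) := by
    unfold bp
    refine (Finset.card_filter_le _ _).trans ?_
    refine Finset.card_image_le.trans ?_
    rw [Finset.card_product, card_U1]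
  have h3 : 0 ≤ thr d p := ENNReal.toReal_nonneg
  rw [nsmul_eq_mul]
  have h4 : ((bp K (Del.ofSet (A : Set (V d)))).card : ℝ) ≤ 2 * d * K.card := by
    calc ((bp K (Del.ofSet (A : Set (V d)))).card : ℝ) ≤ ((K.card * (2 * d) : ℕ) : ℝ) := by
          exact_mod_cast h2
      _ = 2 * d * K.card := by push_cast; ring
  exact mul_le_mul_of_nonneg_right h4 h3

/-- `0 ≤ Y` -/
theorem YgL_nonneg (R : ℕ) {b : ℝ} (h8 : Out8 d b) (O : Set (Sym2 (V d))) (y : V d) :
    0 ≤ Yf R gL O y := by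
  classical
  unfold Yf
  split_ifs with h
  · refine Finset.sum_nonneg fun x _ => ?_
    exact (h8.gL_bd _ ((Lb_finite R O x).image _) (zero_mem_Lb0 R O x)).1
  · exact le_rfl

end Pool.Agent.PB
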