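import Pool.Agent.PB.Spr.Spr
import Pool.Agent.PB.Spr.Exit
import Pool.Agent.PB.P.Expl

/-!
PB-SPR-Up1 (Section 9.1 / 9.3).  The upper bound of `P_p(y → ∞ off A)` by the critical exploration.

Plan. Let `C ω = ClA (ofSet A) (Oc ω) y`. It is a.s. finite: `ClA ⊆ Cl (Oc ω) y` and `theta (pc) = 0`
(`theta_shift`, `ClA_subset_Cl`). Split over the finite values `K` of `C` (`Pr_split_fin`, with
`A := {ω | (ClA (ofSet A) (opn p ω) y).Infinite}`):
`thA p (ofSet A) y = Σ_K Pr ({C = K} ∩ {ClA .. (opn p) y infinite})`. For a `K` with `EvK (ofSet A) y K` nonempty we have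
`y ∈ K` (`self_mem_ClA`) and `K` disjoint from `A` (`ClA_disjoint`); for the others the term is `0` (empty event).
By `exit_inf` (with `O' = opn p ω`) the event is contained in `EvK ∩ hitB K (ofSet A) G p` with
`G q = {ω | (ClA (ofSet (A ∪ K)) (opn p ω) q.2).Infinite}` (`s(q.1,q.2) ∈ opn p ω` gives label `≤ p`).
`spr_cfg` with `Ψ = fun _ => True` (or `spr`), `measurableSet_clA_inf`, `dep_clA_inf`, and `jensen_V`
(`c = epp d p ≥ 0`, `epp_nonneg`) give
`Pr (EvK ∩ hitB) ≤ Pr (EvK) * ofReal (1 - exp (-(epp * Σ_q (thA p (ofSet (A ∪ K)) q.2).toReal)))`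
`= ∫⁻ ω in EvK, ofReal (..) ≤ ∫⁻ ω in EvK, F ω` (`setLIntegral_mono'` with `measurableSet_EvK`, or
`lintegral_mono_ae` and `ae_restrict_iff'`), and `Σ_K ∫⁻ ω in {C = K}, F ω ≤ ∫⁻ F` (`lintegral_split_fin`, equality).
`pc ≥ 0`: from `hC.pc_pos`.
-/

set_option autoImplicit false
open MeasureTheory Filter Topology
open scoped ENNReal BigOperators

namespace Pool.Agent.PB

variable {d : ℕ}

theorem thA_le_F (hC : Crit d) (h5 : theta d (pc d) = 0) {p : ℝ} (hp : pc d ≤ p) (hp1 : p < 1)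
    (A : Finset (V d)) {y : V d} (hyA : y ∉ A) (F : Om d → ℝ≥0∞)
    (hF : ∀ (K : Finset (V d)) (ω : Om d), ω ∈ EvK (Del.ofSet (A : Set (V d))) y K → y ∈ K →
      Disjoint (K : Set (V d)) (A : Set (V d)) →
      ENNReal.ofReal (1 - Real.exp (-(epp d p * ∑ q ∈ bp K (Del.ofSet (A : Set (V d))),
        (thA p (Del.ofSet ((A : Set (V d)) ∪ (K : Set (V d)))) q.2).toReal))) ≤ F ω) :
    thA p (Del.ofSet (A : Set (V d))) y ≤ ∫⁻ ω, F ω ∂Pr d := by
  classical
  set D : Del (V d) := Del.ofSet (A : Set (V d)) with hD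
  have hyD : y ∉ D.S := by
    intro h
    exact hyA (by simpa [hD, Del.ofSet] using h)
  have hMV : MVS (fun ω : Om d => ClA D (Oc ω) y) := (opn_MES (pc d)).clA D y
  have hinf : Pr d {ω : Om d | (ClA D (Oc ω) y).Infinite} = 0 := by
    have h1 : Pr d {ω : Om d | (ClA D (Oc ω) y).Infinite} ≤
        Pr d {ω : Om d | (Cl (opn (pc d) ω) y).Infinite} :=
      measure_mono fun ω h => Set.Infinite.mono (ClA_subset_Cl D _ y) h
    rw [theta_shift, h5] at h1
    exact le_antisymm h1 bot_le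
  have hm := measurableSet_clA_inf (d := d) p D y
  unfold thA
  rw [Pr_split_fin hMV hinf hm, lintegral_split_fin hMV hinf F]
  refine ENNReal.tsum_le_tsum fun K => ?_
  by_cases hne : (EvK D y K).Nonempty
  · obtain ⟨ω0, h0⟩ := hne
    have h0' : ClA D (Oc ω0) y = (K : Set (V d)) := h0
    have hyK : y ∈ K := by
      have := self_mem_ClA (O := Oc ω0) hyD
      rw [h0'] at this
      exact this
    have hKA : Disjoint (K : Set (V d)) D.S := Set.disjoint_left.2 fun x hx => by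
      rw [← h0'] at hx
      exact ClA_disjoint hx
    set G : V d × V d → Set (Om d) :=
      fun q => {ω | (ClA (Del.ofSet ((A : Set (V d)) ∪ (K : Set (V d)))) (opn p ω) q.2).Infinite}
      with hG
    have hGm : ∀ q, MeasurableSet (G q) := fun q => measurableSet_clA_inf p _ q.2
    have hGd : ∀ q, DependsOn (fun ω => ω ∈ G q) (tI (K : Set (V d)))ᶜ :=
      fun q => dep_clA_inf p Set.subset_union_right q.2
    have hsub : {ω : Om d | ClA D (Oc ω) y = (K : Set (V d))} ∩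
        {ω : Om d | (ClA D (opn p ω) y).Infinite} ⊆
        {ω | ω ∈ EvK D y K ∧ True ∧ ω ∈ hitB K D G p} := by
      rintro ω ⟨h1, h2⟩
      refine ⟨h1, trivial, ?_⟩
      obtain ⟨q, hq, hqo, hqi⟩ := exit_inf (O' := opn p ω) (fun e he => he.1) hyK hKA h2
      exact ⟨q, hq, hqi, hqo.2⟩
    have key := spr_cfg hC.pc_pos.le hC.pc_lt hp hp1 hyD hyK hKA (fun _ => True) hGm hGd
    have hj := jensen_V K D hGm (epp_nonneg hC.pc_lt hp hp1)
    have hE : {ω : Om d | ω ∈ EvK D y K ∧ True} = EvK D y K := by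
      ext ω
      simp
    rw [hE] at key
    calc Pr d ({ω : Om d | ClA D (Oc ω) y = (K : Set (V d))} ∩
          {ω : Om d | (ClA D (opn p ω) y).Infinite})
        ≤ Pr d {ω | ω ∈ EvK D y K ∧ True ∧ ω ∈ hitB K D G p} := measure_mono hsub
      _ = Pr d (EvK D y K) *
          ∫⁻ ω, ENNReal.ofReal (1 - Real.exp (-(epp d p * (nB K D G ω : ℝ)))) ∂Pr d := key
      _ ≤ Pr d (EvK D y K) * ENNReal.ofReal (1 - Real.exp (-(epp d p * ∑ q ∈ bp K D,
          (Pr d (G q)).toReal))) := by gcongr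
      _ = ∫⁻ _ in EvK D y K, ENNReal.ofReal (1 - Real.exp (-(epp d p * ∑ q ∈ bp K D,
          (Pr d (G q)).toReal))) ∂Pr d := by
          rw [setLIntegral_const, mul_comm]
      _ ≤ ∫⁻ ω in EvK D y K, F ω ∂Pr d :=
          setLIntegral_mono' (measurableSet_EvK D y K) fun ω hω => hF K ω hω hyK hKA
  · rw [Set.not_nonempty_iff_eq_empty] at hne
    have h1 : {ω : Om d | ClA D (Oc ω) y = (K : Set (V d))} = ∅ := hne
    rw [h1]
    simp

end Pool.Agent.PB
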