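import Pool.Agent.PB.Spr.MixB
import Pool.Agent.PB.Spr.StepU
import Pool.Agent.PB.Spr.MReal
import Pool.Agent.PB.Spr.Up1

/-!
PROJECT PB, Section 9.3: the upper bound, assembly of `Out9`.
-/

set_option autoImplicit false
open MeasureTheory Filter Topology
open scoped ENNReal BigOperators

namespace Pool.Agent.PB

variable {d : ℕ}

/-- `U(t)`: `limsup ε^{-1} P(y → ∞ off A) ≤ t ψ(A,y)` for all finite `A` -/
def UU (d : ℕ) (t : ℝ) : Prop :=
  ∀ (A : Finset (V d)) (y : V d), y ∉ A → ∀ δ : ℝ, 0 < δ → ∀ᶠ ε in 𝓝[>] (0 : ℝ),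
    (thA (pc d + ε) (Del.ofSet (A : Set (V d))) y).toReal ≤ (t * psiK A y + δ) * ε

theorem ev_small {c : ℝ} (hc : 0 < c) : ∀ᶠ ε in 𝓝[>] (0 : ℝ), 0 < ε ∧ ε ≤ c := by
  filter_upwards [Ioc_mem_nhdsGT hc] with ε hε
  exact ⟨hε.1, hε.2⟩

/-- the bound of `P_p(y → ∞ off A)` by the functional -/
theorem thA_le_EW (hC : Crit d) (h5 : Out5 d) (h6 : Out6 d) {b : ℝ} (h8 : Out8 d b) (R : ℕ)
    {t η : ℝ} (ht : 0 ≤ t) {ε : ℝ} (hε : 0 < ε) (hε1 : ε ≤ 1) (hε2 : ε ≤ (1 - pc d) / 2)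
    (A : Finset (V d)) {y : V d} (hyA : y ∉ A)
    (hz : ∀ (K : Finset (V d)) (ω : Om d), ω ∈ EvK (Del.ofSet (A : Set (V d))) y K →
      ∑ q ∈ bp K (Del.ofSet (A : Set (V d))),
        (thA (pc d + ε) (Del.ofSet ((A : Set (V d)) ∪ (K : Set (V d)))) q.2).toReal ≤
      ε * max 0 (t * Yf R gL ((Del.ofSet (A : Set (V d))).rem (Oc ω)) y + η * K.card)) :
    (thA (pc d + ε) (Del.ofSet (A : Set (V d))) y).toReal ≤
      EW (WW R t η) (ε ^ 2) (Del.ofSet (A : Set (V d))) y := by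
  have h01 := hC.pc_lt
  have hp1 : pc d + ε < 1 := by linarith
  have hs : 0 < ε ^ 2 := by positivity
  have hs1 : ε ^ 2 ≤ 1 := pow_le_one₀ hε.le hε1
  have hepp : 0 ≤ epp d (pc d + ε) := by
    refine le_trans ?_ (epp_ge h01 hε.le (by linarith))
    exact div_nonneg hε.le (by linarith)
  have key := thA_le_F hC h5.theta_pc (p := pc d + ε) (by linarith) hp1 A hyA
    (fun ω => ENNReal.ofReal (WA (WW R t η) (ε ^ 2) (Del.ofSet (A : Set (V d))) (Oc ω) y)) ?_
  · have h2 := key.trans (WA_lint (A := A) (y := y) h6 h8 h01 R (η := η) ht hs hs1)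
    have hnn : 0 ≤ EW (WW R t η) (ε ^ 2) (Del.ofSet (A : Set (V d))) y := by
      unfold EW
      refine integral_nonneg fun ω => ?_
      show 0 ≤ WA (WW R t η) (ε ^ 2) (Del.ofSet (A : Set (V d))) (Oc ω) y
      unfold WA
      split_ifs
      · exact le_rfl
      · unfold WW Wf
        have : Real.exp (-(asq d (ε ^ 2) * max 0 (t * Yf R gL ((Del.ofSet (A : Set (V d))).rem (Oc ω)) y
            + η * (Nc ((Del.ofSet (A : Set (V d))).rem (Oc ω)) y : ℝ)))) ≤ 1 := by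
          rw [Real.exp_le_one_iff]
          have := mul_nonneg (asq_nonneg (d := d) (ε ^ 2)) (le_max_left (0 : ℝ)
            (t * Yf R gL ((Del.ofSet (A : Set (V d))).rem (Oc ω)) y
            + η * (Nc ((Del.ofSet (A : Set (V d))).rem (Oc ω)) y : ℝ)))
          linarith
        linarith
    exact ENNReal.toReal_le_of_le_ofReal hnn h2
  · intro K ω hω hyK hKA
    rw [WA_eq hyA hω]
    refine ENNReal.ofReal_le_ofReal ?_
    have h3 := hz K ω hω
    have h4 := mul_le_mul_of_nonneg_left h3 hepp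
    have h5' : epp d (pc d + ε) * (ε * max 0 (t * Yf R gL ((Del.ofSet (A : Set (V d))).rem (Oc ω)) y +
        η * K.card)) = asq d (ε ^ 2) * max 0
        (t * Yf R gL ((Del.ofSet (A : Set (V d))).rem (Oc ω)) y + η * K.card) := by
      rw [asq_eq h01 hε.le hε2]; ring
    rw [h5'] at h4
    have := Real.exp_le_exp.2 (neg_le_neg h4)
    linarith

theorem psiK_nonneg (h6 : Out6 d) (A : Finset (V d)) {y : V d} (hy : y ∉ A) : 0 ≤ psiK A y :=
  h6.psi_nonneg _ y (Del.ofSet_finite A.finite_toSet) hy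

theorem psiK_le_one (h6 : Out6 d) (A : Finset (V d)) {y : V d} (hy : y ∉ A) : psiK A y ≤ 1 :=
  h6.psi_le _ y (Del.ofSet_finite A.finite_toSet) hy

/-- (a) a first bound -/
theorem UU_start (hC : Crit d) (h5 : Out5 d) (h6 : Out6 d) {b : ℝ} (h8 : Out8 d b)
    (hth : ∃ C : ℝ, 1 ≤ C ∧ ∀ p : ℝ, pc d ≤ p → p ≤ 1 → thr d p ≤ C * (p - pc d)) :
    ∃ t : ℝ, 0 ≤ t ∧ UU d t := by
  obtain ⟨C, hC1, hCth⟩ := hth
  have h01 := hC.pc_lt
  refine ⟨Real.sqrt (1 / (1 - pc d) * max 0 (0 * gbar d 0 + 2 * d * C) / b), Real.sqrt_nonneg _, ?_⟩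
  intro A y hyA δ hδ
  filter_upwards [mix_bound h01 h6 h8 0 (t := 0) (η := 2 * d * C) le_rfl A hyA hδ,
    ev_small (show (0 : ℝ) < min 1 ((1 - pc d) / 2) from lt_min one_pos (by linarith))]
    with ε h1 h2
  have hε1 : ε ≤ 1 := h2.2.trans (min_le_left _ _)
  have hε2 : ε ≤ (1 - pc d) / 2 := h2.2.trans (min_le_right _ _)
  have h3 := thA_le_EW hC h5 h6 h8 0 (t := 0) (η := 2 * d * C) le_rfl h2.1 hε1 hε2 A hyA ?_
  · refine h3.trans (h1.trans (le_of_eq ?_))
    ring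
  · intro K ω hω
    refine (zK_le_theta _ A K).trans ?_
    have h4 := hCth (pc d + ε) (by linarith [h2.1]) (by linarith)
    have h5' : thr d (pc d + ε) ≤ C * ε := by simpa using h4
    have h6' : (0 : ℝ) ≤ 2 * d * K.card := by positivity
    calc 2 * (d : ℝ) * K.card * thr d (pc d + ε) ≤ 2 * d * K.card * (C * ε) :=
          mul_le_mul_of_nonneg_left h5' h6'
      _ = ε * (0 * Yf 0 gL ((Del.ofSet (A : Set (V d))).rem (Oc ω)) y + 2 * d * C * K.card) := by ring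
      _ ≤ _ := mul_le_mul_of_nonneg_left (le_max_right _ _) h2.1.le

/-- (b) the improvement step with fixed `R`, `η` -/
theorem UU_step0 (hC : Crit d) (h5 : Out5 d) (h6 : Out6 d) {b : ℝ} (h8 : Out8 d b)
    {t : ℝ} (ht : 0 ≤ t) (hU : UU d t) (R : ℕ) {η : ℝ} (hη : 0 < η) (A : Finset (V d)) {y : V d}
    (hyA : y ∉ A) {δ : ℝ} (hδ : 0 < δ) :
    ∀ᶠ ε in 𝓝[>] (0 : ℝ), (thA (pc d + ε) (Del.ofSet (A : Set (V d))) y).toReal ≤
      (psiK A y * Real.sqrt (1 / (1 - pc d) * max 0 (t * gbar d R + 2 * d * η) / b) + δ) * ε := by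
  classical
  have h01 := hC.pc_lt
  -- the finitely many sets L
  have hfin : {L : Finset (V d) | (L : Set (V d)) ⊆ bx R 0}.Finite := by
    refine Set.Finite.subset ((bx_finite R (0 : V d)).toFinset.powerset.finite_toSet) ?_
    intro L hL
    simp only [Finset.mem_coe, Finset.mem_powerset]
    intro x hx
    exact (bx_finite R (0 : V d)).mem_toFinset.2 (hL hx)
  have hall : ∀ᶠ ε in 𝓝[>] (0 : ℝ), ∀ L ∈ {L : Finset (V d) | (L : Set (V d)) ⊆ bx R 0},
      ∀ v ∈ U1 d, v ∉ L → (thA (pc d + ε) (Del.ofSet (L : Set (V d))) v).toReal ≤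
        (t * psiK L v + η) * ε := by
    rw [Filter.eventually_all_finite hfin]
    intro L _
    rw [Filter.eventually_all_finset]
    intro v _
    by_cases hv : v ∉ L
    · filter_upwards [hU L v hv η hη] with ε h _
      exact h
    · exact Filter.Eventually.of_forall fun ε h => absurd h hv
  filter_upwards [mix_bound h01 h6 h8 R (t := t) (η := 2 * d * η) ht A hyA hδ, hall,
    ev_small (show (0 : ℝ) < min 1 ((1 - pc d) / 2) from lt_min one_pos (by linarith))]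
    with ε h1 hL h2
  have hε1 : ε ≤ 1 := h2.2.trans (min_le_left _ _)
  have hε2 : ε ≤ (1 - pc d) / 2 := h2.2.trans (min_le_right _ _)
  refine (thA_le_EW hC h5 h6 h8 R (t := t) (η := 2 * d * η) ht h2.1 hε1 hε2 A hyA ?_).trans h1
  intro K ω hω
  refine (zK_le R ht hη.le h2.1.le (fun L v hv => psiK_nonneg h6 L hv)
    (fun L hLb _ v hv hvL => hL L hLb v ((mem_U1 v).2 hv) hvL) A hyA hω).trans ?_
  exact mul_le_mul_of_nonneg_left (le_max_right _ _) h2.1.le

/-- (b) the improvement step -/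
theorem UU_step (hC : Crit d) (h5 : Out5 d) (h6 : Out6 d) {b : ℝ} (h8 : Out8 d b)
    {t : ℝ} (ht : 0 ≤ t) (hU : UU d t) : UU d (Real.sqrt (lam d b * t)) := by
  intro A y hyA δ hδ
  have h01 := hC.pc_lt
  -- choose R and η
  have hlim : Tendsto (fun n : ℕ => Real.sqrt (1 / (1 - pc d) *
      max 0 (t * gbar d n + 2 * d * (1 / ((n : ℝ) + 1))) / b)) atTop
      (𝓝 (Real.sqrt (1 / (1 - pc d) * max 0 (t * ginf d + 2 * d * 0) / b))) := by
    refine Real.continuous_sqrt.continuousAt.tendsto.comp ?_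
    refine Tendsto.div_const (Tendsto.const_mul _ ?_) _
    refine (tendsto_const_nhds (x := (0 : ℝ))).max ?_
    exact (h8.gbar_lim.const_mul t).add ((tendsto_one_div_add_atTop_nhds_zero_nat).const_mul _)
  have hg0 : 0 ≤ ginf d := ge_of_tendsto' h8.gbar_lim h8.gbar_nonneg
  have hval : Real.sqrt (1 / (1 - pc d) * max 0 (t * ginf d + 2 * d * 0) / b) =
      Real.sqrt (lam d b * t) := by
    rw [mul_zero, add_zero, max_eq_right (mul_nonneg ht hg0)]
    unfold lam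
    congr 1
    have hb : (1 - pc d) ≠ 0 := by linarith
    by_cases hb0 : b = 0
    · subst hb0; simp
    · field_simp
  rw [hval] at hlim
  have hev := (hlim.eventually (gt_mem_nhds (show Real.sqrt (lam d b * t) <
    Real.sqrt (lam d b * t) + δ / 2 by linarith)))
  obtain ⟨n, hn⟩ := hev.exists
  filter_upwards [UU_step0 hC h5 h6 h8 ht hU n (η := 1 / ((n : ℝ) + 1)) (by positivity) A hyA
    (half_pos hδ), self_mem_nhdsWithin] with ε h1 h2
  refine h1.trans ?_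
  have h2' : (0 : ℝ) < ε := h2
  refine mul_le_mul_of_nonneg_right ?_ h2'.le
  have h3 := psiK_nonneg h6 A hyA
  have h4 := psiK_le_one h6 A hyA
  nlinarith [hn.le, mul_le_mul_of_nonneg_left hn.le h3, Real.sqrt_nonneg (lam d b * t)]

theorem UU_mono (h6 : Out6 d) {t t' : ℝ} (htt : t ≤ t') (hU : UU d t) : UU d t' := by
  intro A y hyA δ hδ
  filter_upwards [hU A y hyA δ hδ, self_mem_nhdsWithin] with ε h1 h2
  have h2' : (0 : ℝ) < ε := h2
  refine h1.trans (mul_le_mul_of_nonneg_right ?_ h2'.le)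
  have := mul_le_mul_of_nonneg_right htt (psiK_nonneg h6 A hyA)
  linarith

theorem UU_closed (h6 : Out6 d) {m : ℝ} (h : ∀ t, m < t → UU d t) : UU d m := by
  intro A y hyA δ hδ
  filter_upwards [h (m + δ / 2) (by linarith) A y hyA (δ / 2) (half_pos hδ), self_mem_nhdsWithin]
    with ε h1 h2
  have h2' : (0 : ℝ) < ε := h2
  refine h1.trans (mul_le_mul_of_nonneg_right ?_ h2'.le)
  have := mul_le_mul_of_nonneg_left (psiK_le_one h6 A hyA) (half_pos hδ).le
  nlinarith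

theorem lam_nonneg (hC : Crit d) {b : ℝ} (hb : 0 < b) (h8 : Out8 d b) : 0 ≤ lam d b := by
  unfold lam
  have h01 := hC.pc_lt
  exact div_nonneg (ge_of_tendsto' h8.gbar_lim h8.gbar_nonneg) (mul_nonneg (by linarith) hb.le)

/-- (c) `U(λ)` -/
theorem UU_lam (hC : Crit d) (h5 : Out5 d) (h6 : Out6 d) {b : ℝ} (hb : 0 < b) (h8 : Out8 d b)
    (hth : ∃ C : ℝ, 1 ≤ C ∧ ∀ p : ℝ, pc d ≤ p → p ≤ 1 → thr d p ≤ C * (p - pc d)) :
    UU d (lam d b) := by
  obtain ⟨t0, ht0, hU0⟩ := UU_start hC h5 h6 h8 hth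
  have hl := lam_nonneg hC hb h8
  set S : Set ℝ := {t : ℝ | 0 ≤ t ∧ UU d t} with hS
  have hne : S.Nonempty := ⟨t0, ht0, hU0⟩
  have hbdd : BddBelow S := ⟨0, fun t ht => ht.1⟩
  set m := sInf S with hm
  have hm0 : 0 ≤ m := le_csInf hne fun t ht => ht.1
  have hUm : UU d m := by
    refine UU_closed h6 fun t ht => ?_
    obtain ⟨t', ht', hlt⟩ := exists_lt_of_csInf_lt hne ht
    exact UU_mono h6 hlt.le ht'.2
  have hstep := UU_step hC h5 h6 h8 hm0 hUm
  have h1 : m ≤ Real.sqrt (lam d b * m) := csInf_le hbdd ⟨Real.sqrt_nonneg _, hstep⟩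
  have h2 : m ≤ lam d b := by
    by_contra hcon
    rw [not_le] at hcon
    have hmpos : 0 < m := lt_of_le_of_lt hl hcon
    have h3 : m ^ 2 ≤ lam d b * m := by
      have := pow_le_pow_left₀ hm0 h1 2
      rwa [Real.sq_sqrt (mul_nonneg hl hm0)] at this
    nlinarith
  exact UU_mono h6 h2 hUm

/-- OUTPUT of Section 9 -/
theorem out9 (hC : Crit d) (h5 : Out5 d) (h6 : Out6 d) {b : ℝ} (h7 : Out7 d b) (h8 : Out8 d b) :
    Out9 d b := by
  have hM := out9_M_le hC h5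
  have hth := out9_th_le hM
  have hU := UU_lam hC h5 h6 h7.b_pos h8 hth
  have hpsi1 : psiK (∅ : Finset (V d)) 0 = 1 := by
    unfold psiK
    rw [Finset.coe_empty]
    exact h6.psi_D0 0
  have hthr : ∀ p : ℝ, (thA p (Del.ofSet ((∅ : Finset (V d)) : Set (V d))) (0 : V d)).toReal = thr d p := by
    intro p
    rw [Finset.coe_empty, thA_D0]
    rfl
  have hlim : ∀ δ : ℝ, 0 < δ → ∀ᶠ ε in 𝓝[>] (0 : ℝ), thr d (pc d + ε) ≤ (lam d b + δ) * ε := by
    intro δ hδ
    filter_upwards [hU ∅ 0 (Finset.notMem_empty _) δ hδ] with ε h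
    rw [hthr, hpsi1, mul_one] at h
    exact h
  have hl := lam_nonneg hC h7.b_pos h8
  refine ⟨hM, hth, out9_tail_le hM, ?_, hlim⟩
  rcases hl.lt_or_eq with h | h
  · exact h
  · exfalso
    obtain ⟨c, hc, hge⟩ := hC.theta_ge
    have h01 := hC.pc_lt
    have h1 := (hlim (c / 2) (half_pos hc)).and (ev_small (show (0 : ℝ) < 1 - pc d by linarith))
    obtain ⟨ε, h2, h3, h4⟩ := h1.exists
    rw [← h, zero_add] at h2
    have h5' := hge (pc d + ε) (by linarith) (by linarith)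
    have : c * ε ≤ c / 2 * ε := by
      have : pc d + ε - pc d = ε := by ring
      rw [this] at h5'
      exact h5'.trans h2
    nlinarith

end Pool.Agent.PB
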