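import Pool.Agent.PB.Spr.Defs

/-!
PB-SPR-Asq (Section 9, real analysis).  `ε'' = epp d (p_c + ε) = -log(1 - ε/(1-p_c))` and the scale function
`asq d s = max(0, min(√s max(0, epp d (p_c+√s)), 2 s/(1-p_c)))`, which equals `√s epp d (p_c + √s)` for small `s > 0`.

Plan. `epp d (pc + ε) = -log (1 - ε/(1-pc))`; `x ≤ -log (1-x)` (`Real.log_le_sub_one_of_pos`, `Real.add_one_le_exp`) and
`-log (1-x) ≤ 2 x` for `0 ≤ x ≤ 1/2` (`-log (1-x) = log (1/(1-x)) ≤ 1/(1-x) - 1 = x/(1-x) ≤ 2x`).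
Limit: `-log (1-x)/x → 1` as `x → 0+` from `x ≤ -log (1-x) ≤ x/(1-x)` (squeeze), composed with `x = √s/(1-pc)`.
-/

set_option autoImplicit false
open MeasureTheory Filter Topology
open scoped ENNReal BigOperators

namespace Pool.Agent.PB

variable {d : ℕ}

/-- `a_s ~ s/(1-p_c)`: `√s · ε''(√s)`, truncated -/
noncomputable def asq (d : ℕ) (s : ℝ) : ℝ :=
  max 0 (min (Real.sqrt s * max 0 (epp d (pc d + Real.sqrt s))) (2 / (1 - pc d) * s))

private theorem epp_form (h01 : pc d < 1) (ε : ℝ) :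
    epp d (pc d + ε) = -Real.log (1 - ε / (1 - pc d)) := by
  unfold epp
  have hq : (1 - pc d) ≠ 0 := by linarith
  congr 2
  field_simp
  ring

private theorem epp_upper (h01 : pc d < 1) {ε : ℝ} (hε : 0 ≤ ε) (hε2 : ε < 1 - pc d) :
    epp d (pc d + ε) ≤ ε / (1 - pc d) * (1 / (1 - ε / (1 - pc d))) := by
  have hq : 0 < 1 - pc d := by linarith
  rw [epp_form h01]
  have hx : ε / (1 - pc d) < 1 := (div_lt_one hq).2 hε2
  have h1 : 0 < 1 - ε / (1 - pc d) := by linarith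
  have h2 := Real.one_sub_inv_le_log_of_pos h1
  have h3 : ε / (1 - pc d) * (1 / (1 - ε / (1 - pc d))) = (1 - ε / (1 - pc d))⁻¹ - 1 := by
    generalize ε / (1 - pc d) = x at *
    have h4 : (1 - x) ≠ 0 := h1.ne'
    field_simp
    ring
  rw [h3]
  linarith

theorem epp_le_two (h01 : pc d < 1) {ε : ℝ} (hε : 0 ≤ ε) (hε2 : ε ≤ (1 - pc d) / 2) :
    epp d (pc d + ε) ≤ 2 / (1 - pc d) * ε := by
  have hq : 0 < 1 - pc d := by linarith
  refine (epp_upper h01 hε (by linarith)).trans ?_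
  have hx0 : 0 ≤ ε / (1 - pc d) := div_nonneg hε hq.le
  have hx : ε / (1 - pc d) ≤ 1 / 2 := by
    rw [div_le_iff₀ hq]; linarith
  have h1 : 1 / (1 - ε / (1 - pc d)) ≤ 2 := by
    rw [div_le_iff₀ (by linarith)]; linarith
  calc ε / (1 - pc d) * (1 / (1 - ε / (1 - pc d))) ≤ ε / (1 - pc d) * 2 :=
        mul_le_mul_of_nonneg_left h1 hx0
    _ = 2 / (1 - pc d) * ε := by ring

theorem epp_ge (h01 : pc d < 1) {ε : ℝ} (hε : 0 ≤ ε) (hε2 : ε < 1 - pc d) :
    ε / (1 - pc d) ≤ epp d (pc d + ε) := by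
  have hq : 0 < 1 - pc d := by linarith
  rw [epp_form h01]
  have hx : ε / (1 - pc d) < 1 := (div_lt_one hq).2 hε2
  have h2 := Real.log_le_sub_one_of_pos (x := 1 - ε / (1 - pc d)) (by linarith)
  linarith

theorem asq_nonneg (s : ℝ) : 0 ≤ asq d s := le_max_left _ _

theorem asq_le (h01 : pc d < 1) {s : ℝ} (hs : 0 ≤ s) : asq d s ≤ 2 / (1 - pc d) * s :=
  max_le (mul_nonneg (div_nonneg (by norm_num) (by linarith)) hs) (min_le_right _ _)

theorem asq_eq (h01 : pc d < 1) {ε : ℝ} (hε : 0 ≤ ε) (hε2 : ε ≤ (1 - pc d) / 2) :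
    asq d (ε ^ 2) = ε * epp d (pc d + ε) := by
  have hq : 0 < 1 - pc d := by linarith
  unfold asq
  rw [Real.sqrt_sq hε]
  have h1 := epp_ge h01 hε (by linarith)
  have h2 := epp_le_two h01 hε hε2
  have h0 : 0 ≤ epp d (pc d + ε) := (div_nonneg hε hq.le).trans h1
  rw [max_eq_right h0, min_eq_left, max_eq_right (mul_nonneg hε h0)]
  calc ε * epp d (pc d + ε) ≤ ε * (2 / (1 - pc d) * ε) := mul_le_mul_of_nonneg_left h2 hε
    _ = 2 / (1 - pc d) * ε ^ 2 := by ring

theorem asq_lim (h01 : pc d < 1) :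
    Tendsto (fun s => asq d s / s) (𝓝[>] 0) (𝓝 (1 / (1 - pc d))) := by
  have hq : 0 < 1 - pc d := by linarith
  have hsq : Tendsto (fun s : ℝ => Real.sqrt s) (𝓝[>] 0) (𝓝 0) := by
    have := (Real.continuous_sqrt.tendsto 0).mono_left (nhdsWithin_le_nhds (s := Set.Ioi 0))
    simpa using this
  have hup : Tendsto (fun s : ℝ => 1 / (1 - pc d) * (1 / (1 - Real.sqrt s / (1 - pc d))))
      (𝓝[>] 0) (𝓝 (1 / (1 - pc d))) := by
    have h1 : Tendsto (fun s : ℝ => 1 - Real.sqrt s / (1 - pc d)) (𝓝[>] 0) (𝓝 1) := by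
      have := (hsq.div_const (1 - pc d)).const_sub 1
      simpa using this
    have h2 := (h1.inv₀ one_ne_zero).const_mul (1 / (1 - pc d))
    simpa [one_div] using h2
  have hev : ∀ᶠ s : ℝ in 𝓝[>] 0, Real.sqrt s ≤ (1 - pc d) / 2 := by
    have := hsq.eventually (Iic_mem_nhds (show (0 : ℝ) < (1 - pc d) / 2 by linarith))
    exact this
  have hform : ∀ᶠ s : ℝ in 𝓝[>] 0, 1 / (1 - pc d) ≤ asq d s / s ∧
      asq d s / s ≤ 1 / (1 - pc d) * (1 / (1 - Real.sqrt s / (1 - pc d))) := by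
    filter_upwards [hev, self_mem_nhdsWithin] with s hs hs0
    have hs0' : (0 : ℝ) < s := hs0
    have hr : 0 < Real.sqrt s := Real.sqrt_pos.2 hs0'
    have hss : Real.sqrt s ^ 2 = s := Real.sq_sqrt hs0'.le
    have h1 : asq d s = Real.sqrt s * epp d (pc d + Real.sqrt s) := by
      have := asq_eq h01 hr.le hs
      rwa [hss] at this
    have h2 : asq d s / s = epp d (pc d + Real.sqrt s) / Real.sqrt s := by
      rw [h1]
      nth_rewrite 3 [← hss]
      field_simp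
    rw [h2]
    constructor
    · rw [le_div_iff₀ hr]
      have := epp_ge h01 hr.le (by linarith : Real.sqrt s < 1 - pc d)
      calc 1 / (1 - pc d) * Real.sqrt s = Real.sqrt s / (1 - pc d) := by ring
        _ ≤ _ := this
    · rw [div_le_iff₀ hr]
      have := epp_upper h01 hr.le (by linarith : Real.sqrt s < 1 - pc d)
      calc epp d (pc d + Real.sqrt s) ≤ _ := this
        _ = _ := by ring
  exact tendsto_of_tendsto_of_tendsto_of_le_of_le' tendsto_const_nhds hup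
    (hform.mono fun s h => h.1) (hform.mono fun s h => h.2)

end Pool.Agent.PB
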