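import Pool.Agent.PB.P.Mix

/-!
PROJECT PB, Section 9.1: the sprinkling identity, abstract form (any index set).

`f` depends on labels in `S`, the events `G i` (`i ∈ B`, 'the label `i` is good') depend on labels in `T`,
`B` is a finite set of labels; `S`, `T`, `B` are pairwise disjoint.  Given `f` and that all labels in `B`
are `> p0`, the labels in `B` are i.i.d. uniform on `(p0,1]`, and

`E[f 1{∀ i∈B, p0 < U_i} 1{no good i∈B has U_i ≤ p}] = E[f 1{∀ i∈B, p0 < U_i}] E[r^V]`,

`V = #{i ∈ B good}`, `r = (1-p)/(1-p0)`.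
-/

set_option autoImplicit false
open MeasureTheory Filter Topology
open scoped ENNReal BigOperators

namespace Pool.Agent.PB

variable {ι : Type*}

/-- all labels in `B` are `> p0` -/
def allGt (B : Finset ι) (p0 : ℝ) : Set (ι → unitInterval) :=
  {ω | ∀ i ∈ B, p0 < ((ω i : unitInterval) : ℝ)}

/-- no good label in `B` is `≤ p` -/
def noGood (B : Finset ι) (G : ι → Set (ι → unitInterval)) (p : ℝ) : Set (ι → unitInterval) :=
  {ω | ∀ i ∈ B, ω ∈ G i → p < ((ω i : unitInterval) : ℝ)}

/-- some good label in `B` is `≤ p` -/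
def someGood (B : Finset ι) (G : ι → Set (ι → unitInterval)) (p : ℝ) : Set (ι → unitInterval) :=
  {ω | ∃ i ∈ B, ω ∈ G i ∧ ((ω i : unitInterval) : ℝ) ≤ p}

/-- the number of good labels -/
noncomputable def nGood (B : Finset ι) (G : ι → Set (ι → unitInterval)) (ω : ι → unitInterval) : ℕ := by
  classical exact (B.filter (fun i => ω ∈ G i)).card

theorem someGood_compl (B : Finset ι) (G : ι → Set (ι → unitInterval)) (p : ℝ) :
    (someGood B G p)ᶜ = noGood B G p := by
  ext ω
  simp only [someGood, noGood, Set.mem_compl_iff, Set.mem_ofPred_eq, not_exists, not_and, not_le]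

theorem measurableSet_allGt (B : Finset ι) (p0 : ℝ) : MeasurableSet (allGt B p0) := by
  have : allGt B p0 = ⋂ i ∈ B, {ω : ι → unitInterval | ((ω i : unitInterval) : ℝ) ≤ p0}ᶜ := by
    ext ω; simp [allGt]
  rw [this]
  exact MeasurableSet.biInter B.countable_toSet fun i _ => (meas_le i p0).compl

theorem measurableSet_someGood (B : Finset ι) {G : ι → Set (ι → unitInterval)}
    (hG : ∀ i, MeasurableSet (G i)) (p : ℝ) : MeasurableSet (someGood B G p) := by
  have : someGood B G p = ⋃ i ∈ B, (G i ∩ {ω : ι → unitInterval | ((ω i : unitInterval) : ℝ) ≤ p}) := by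
    ext ω
    simp only [someGood, Set.mem_ofPred_eq, Set.mem_iUnion, Set.mem_inter_iff, exists_prop]
  rw [this]
  exact MeasurableSet.biUnion B.countable_toSet fun i _ => (hG i).inter (meas_le i p)

theorem measurableSet_noGood (B : Finset ι) {G : ι → Set (ι → unitInterval)}
    (hG : ∀ i, MeasurableSet (G i)) (p : ℝ) : MeasurableSet (noGood B G p) := by
  rw [← someGood_compl]; exact (measurableSet_someGood B hG p).compl

theorem nGood_le (B : Finset ι) (G : ι → Set (ι → unitInterval)) (ω : ι → unitInterval) :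
    nGood B G ω ≤ B.card := by
  classical
  unfold nGood
  exact Finset.card_filter_le _ _

theorem nGood_eq_sum (B : Finset ι) (G : ι → Set (ι → unitInterval)) (ω : ι → unitInterval) :
    (nGood B G ω : ℝ) = ∑ i ∈ B, (G i).indicator (fun _ => (1 : ℝ)) ω := by
  classical
  unfold nGood
  rw [Finset.card_eq_sum_ones, Finset.sum_filter]
  push_cast
  refine Finset.sum_congr rfl fun i _ => ?_
  by_cases h : ω ∈ G i <;> simp [h]

theorem measurable_nGood (B : Finset ι) {G : ι → Set (ι → unitInterval)}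
    (hG : ∀ i, MeasurableSet (G i)) : Measurable (fun ω => (nGood B G ω : ℝ)) := by
  simp only [nGood_eq_sum]
  exact Finset.measurable_sum B fun i _ => measurable_const.indicator (hG i)

/-- law of the labels in `B`, thresholds `p` on `B'`, `p0` elsewhere -/
private theorem two_thr (B : Finset ι) (P : ι → Prop) [DecidablePred P] {p0 p : ℝ} (h0 : 0 ≤ p0)
    (h01 : p0 < 1) (hp : p0 ≤ p) (hp1 : p ≤ 1) :
    PrI ι {ω | ∀ i ∈ B, (if P i then p else p0) < ((ω i : unitInterval) : ℝ)} =
      PrI ι (allGt B p0) * ENNReal.ofReal (((1 - p) / (1 - p0)) ^ (B.filter P).card) := by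
  classical
  have hp0 : 0 < 1 - p0 := by linarith
  have h1 := Pr_labels_pi B (t := fun i => {x : unitInterval | (if P i then p else p0) < (x : ℝ)})
    (fun i _ => measurableSet_lt (by fun_prop) (by fun_prop))
  have h2 : PrI ι (allGt B p0) = (1 - ENNReal.ofReal (min p0 1)) ^ B.card := Pr_labels_gt B p0
  have e1 : (1 : ℝ≥0∞) - ENNReal.ofReal (min p0 1) = ENNReal.ofReal (1 - p0) := by
    rw [min_eq_left h01.le, ← ENNReal.ofReal_one, ← ENNReal.ofReal_sub _ h0]
  have e2 : (1 : ℝ≥0∞) - ENNReal.ofReal (min p 1) = ENNReal.ofReal (1 - p) := by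
    rw [min_eq_left hp1, ← ENNReal.ofReal_one, ← ENNReal.ofReal_sub _ (h0.trans hp)]
  have h3 : {ω : ι → unitInterval | ∀ i ∈ B, (if P i then p else p0) < ((ω i : unitInterval) : ℝ)} =
      {ω | ∀ i ∈ B, ω i ∈ {x : unitInterval | (if P i then p else p0) < (x : ℝ)}} := rfl
  rw [h3, h1, h2, e1]
  have h4 : ∀ i ∈ B, (volume : Measure unitInterval)
      {x : unitInterval | (if P i then p else p0) < (x : ℝ)} =
      ENNReal.ofReal (1 - p0) * (if P i then ENNReal.ofReal ((1 - p) / (1 - p0)) else 1) := by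
    intro i _
    by_cases hi : P i
    · simp only [hi, if_true]
      rw [vol_gt, e2, ← ENNReal.ofReal_mul hp0.le]
      congr 1
      field_simp
    · simp only [hi, if_false]
      rw [vol_gt, e1, mul_one]
  rw [Finset.prod_congr rfl h4, Finset.prod_mul_distrib, Finset.prod_const]
  congr 1
  rw [Finset.prod_ite, Finset.prod_const, Finset.prod_const_one, mul_one,
    ENNReal.ofReal_pow (div_nonneg (by linarith) hp0.le)]

theorem indep3 {S T : Set ι} {B : Finset ι} (hST : Disjoint S T) (hBS : ∀ i ∈ B, i ∉ S) 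
    {f : (ι → unitInterval) → ℝ≥0∞} (hf : Measurable f) (hfS : DependsOn f S)
    {g : (ι → unitInterval) → ℝ≥0∞} (hg : Measurable g) (hgT : DependsOn g (T ∪ (B : Set ι))) :
    ∫⁻ ω, f ω * g ω ∂PrI ι = (∫⁻ ω, f ω ∂PrI ι) * ∫⁻ ω, g ω ∂PrI ι := by
  refine lintegral_mul_indep (S := S) (T := T ∪ (B : Set ι)) ?_ hf hg hfS hgT
  rw [Set.disjoint_union_right]
  exact ⟨hST, Set.disjoint_left.2 fun i hi hB => hBS i (by simpa using hB) hi⟩

/-- the law of the number of good labels enters only through `E[r^V]` (no `f`) -/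
private theorem core {T : Set ι} {B : Finset ι} (hBT : ∀ i ∈ B, i ∉ T) {p0 p : ℝ} (h0 : 0 ≤ p0)
    (h01 : p0 < 1) (hp : p0 ≤ p) (hp1 : p ≤ 1) {G : ι → Set (ι → unitInterval)}
    (hG : ∀ i, MeasurableSet (G i)) (hGT : ∀ i, DependsOn (fun ω => ω ∈ G i) T) :
    PrI ι (allGt B p0 ∩ noGood B G p) = PrI ι (allGt B p0) *
      ∫⁻ ω, ENNReal.ofReal (((1 - p) / (1 - p0)) ^ nGood B G ω) ∂PrI ι := by
  classical
  have hm : MeasurableSet (allGt B p0 ∩ noGood B G p) :=
    (measurableSet_allGt B p0).inter (measurableSet_noGood B hG p)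
  have hm2 : Measurable (fun ω => ENNReal.ofReal (((1 - p) / (1 - p0)) ^ nGood B G ω)) := by
    have : (fun ω => ENNReal.ofReal (((1 - p) / (1 - p0)) ^ nGood B G ω)) =
        (fun x : ℝ => ENNReal.ofReal (((1 - p) / (1 - p0)) ^ ⌊x⌋₊)) ∘ (fun ω => (nGood B G ω : ℝ)) := by
      funext ω; simp
    rw [this]
    refine Measurable.comp ?_ (measurable_nGood B hG)
    exact ENNReal.measurable_ofReal.comp ((measurable_from_nat (f := fun n : ℕ => ((1 - p) / (1 - p0)) ^ n)).comp
      Nat.measurable_floor)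
  rw [← lintegral_indicator_one hm, lintegral_mix T (measurable_one.indicator hm),
    ← lintegral_const_mul _ hm2]
  refine lintegral_congr fun ω => ?_
  have h1 : ∀ ω', (allGt B p0 ∩ noGood B G p).indicator (1 : (ι → unitInterval) → ℝ≥0∞) (mix T ω ω') =
      ({ω' : ι → unitInterval | ∀ i ∈ B, (if ω ∈ G i then p else p0) <
        ((ω' i : unitInterval) : ℝ)}).indicator 1 ω' := by
    intro ω'
    have hg : ∀ i, (mix T ω ω' ∈ G i) = (ω ∈ G i) := fun i =>
      DependsOn.mix_left (hGT i) subset_rfl ω ω'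
    have hiff : mix T ω ω' ∈ allGt B p0 ∩ noGood B G p ↔
        ω' ∈ {ω' : ι → unitInterval | ∀ i ∈ B, (if ω ∈ G i then p else p0) <
          ((ω' i : unitInterval) : ℝ)} := by
      simp only [allGt, noGood, Set.mem_inter_iff, Set.mem_ofPred_eq, hg]
      constructor
      · rintro ⟨ha, hb⟩ i hi
        have hi' := mix_out (hBT i hi) ω ω'
        by_cases hgi : ω ∈ G i
        · simp only [hgi, if_true]; rw [← hi']; exact hb i hi hgi
        · simp only [hgi, if_false]; rw [← hi']; exact ha i hi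
      · intro h
        refine ⟨fun i hi => ?_, fun i hi hgi => ?_⟩
        · have := h i hi
          rw [mix_out (hBT i hi)]
          by_cases hgi : ω ∈ G i
          · simp only [hgi, if_true] at this; linarith
          · simp only [hgi, if_false] at this; exact this
        · have := h i hi
          rw [mix_out (hBT i hi)]
          simpa only [hgi, if_true] using this
    by_cases h : mix T ω ω' ∈ allGt B p0 ∩ noGood B G p
    · rw [Set.indicator_of_mem h, Set.indicator_of_mem (hiff.1 h)]; simp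
    · rw [Set.indicator_of_notMem h, Set.indicator_of_notMem (fun h' => h (hiff.2 h'))]
  simp only [h1]
  rw [lintegral_indicator_one, two_thr B (fun i => ω ∈ G i) h0 h01 hp hp1]
  · rfl
  · have : {ω' : ι → unitInterval | ∀ i ∈ B, (if ω ∈ G i then p else p0) <
        ((ω' i : unitInterval) : ℝ)} = ⋂ i ∈ B, {ω' : ι → unitInterval |
          ((ω' i : unitInterval) : ℝ) ≤ (if ω ∈ G i then p else p0)}ᶜ := by
      ext ω'; simp
    rw [this]
    exact MeasurableSet.biInter B.countable_toSet fun i _ => (meas_le i _).compl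

/-- SPRINKLING IDENTITY, abstract form -/
theorem sprI_no {S T : Set ι} {B : Finset ι} (hST : Disjoint S T) (hBS : ∀ i ∈ B, i ∉ S)
    (hBT : ∀ i ∈ B, i ∉ T) {p0 p : ℝ} (h0 : 0 ≤ p0) (h01 : p0 < 1) (hp : p0 ≤ p) (hp1 : p ≤ 1)
    {f : (ι → unitInterval) → ℝ≥0∞} (hf : Measurable f) (hfS : DependsOn f S)
    {G : ι → Set (ι → unitInterval)} (hG : ∀ i, MeasurableSet (G i))
    (hGT : ∀ i, DependsOn (fun ω => ω ∈ G i) T) :
    ∫⁻ ω, f ω * (allGt B p0 ∩ noGood B G p).indicator 1 ω ∂PrI ι =
      (∫⁻ ω, f ω * (allGt B p0).indicator 1 ω ∂PrI ι) *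
        ∫⁻ ω, ENNReal.ofReal (((1 - p) / (1 - p0)) ^ nGood B G ω) ∂PrI ι := by
  classical
  have hd1 : DependsOn (fun ω => (allGt B p0).indicator (1 : (ι → unitInterval) → ℝ≥0∞) ω)
      (T ∪ (B : Set ι)) := by
    intro ω ω' h
    have : ω ∈ allGt B p0 ↔ ω' ∈ allGt B p0 := by
      simp only [allGt, Set.mem_ofPred_eq]
      refine forall₂_congr fun i hi => ?_
      rw [h i (Or.inr (by simpa using hi))]
    simp only [Set.indicator_apply, this, Pi.one_apply]
  have hd2 : DependsOn (fun ω => (allGt B p0 ∩ noGood B G p).indicator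
      (1 : (ι → unitInterval) → ℝ≥0∞) ω) (T ∪ (B : Set ι)) := by
    intro ω ω' h
    have h1 : ω ∈ allGt B p0 ↔ ω' ∈ allGt B p0 := by
      simp only [allGt, Set.mem_ofPred_eq]
      refine forall₂_congr fun i hi => ?_
      rw [h i (Or.inr (by simpa using hi))]
    have h2 : ω ∈ noGood B G p ↔ ω' ∈ noGood B G p := by
      simp only [noGood, Set.mem_ofPred_eq]
      refine forall₂_congr fun i hi => ?_
      have := hGT i (fun j hj => h j (Or.inl hj))
      simp only [this, h i (Or.inr (by simpa using hi))]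
    simp only [Set.indicator_apply, Set.mem_inter_iff, h1, h2, Pi.one_apply]
  have hm : MeasurableSet (allGt B p0 ∩ noGood B G p) :=
    (measurableSet_allGt B p0).inter (measurableSet_noGood B hG p)
  rw [indep3 hST hBS hf hfS (measurable_one.indicator hm) hd2,
    indep3 hST hBS hf hfS (measurable_one.indicator (measurableSet_allGt B p0)) hd1,
    lintegral_indicator_one hm, lintegral_indicator_one (measurableSet_allGt B p0),
    core hBT h0 h01 hp hp1 hG hGT, mul_assoc]

/-- the same for the complementary event -/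
private theorem core_some {T : Set ι} {B : Finset ι} (hBT : ∀ i ∈ B, i ∉ T) {p0 p : ℝ} (h0 : 0 ≤ p0)
    (h01 : p0 < 1) (hp : p0 ≤ p) (hp1 : p ≤ 1) {G : ι → Set (ι → unitInterval)}
    (hG : ∀ i, MeasurableSet (G i)) (hGT : ∀ i, DependsOn (fun ω => ω ∈ G i) T) :
    PrI ι (allGt B p0 ∩ someGood B G p) = PrI ι (allGt B p0) *
      ∫⁻ ω, ENNReal.ofReal (1 - ((1 - p) / (1 - p0)) ^ nGood B G ω) ∂PrI ι := by
  classical
  have hr0 : 0 ≤ (1 - p) / (1 - p0) := div_nonneg (by linarith) (by linarith)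
  have hr1 : (1 - p) / (1 - p0) ≤ 1 := by rw [div_le_one (by linarith)]; linarith
  have hms : Measurable (fun ω : ι → unitInterval => ENNReal.ofReal (((1 - p) / (1 - p0)) ^ nGood B G ω)) := by
    have : (fun ω : ι → unitInterval => ENNReal.ofReal (((1 - p) / (1 - p0)) ^ nGood B G ω)) =
        (fun x : ℝ => ENNReal.ofReal (((1 - p) / (1 - p0)) ^ ⌊x⌋₊)) ∘ (fun ω => (nGood B G ω : ℝ)) := by
      funext ω; simp
    rw [this]
    refine Measurable.comp ?_ (measurable_nGood B hG)
    exact ENNReal.measurable_ofReal.comp ((measurable_from_nat (f := fun n : ℕ => ((1 - p) / (1 - p0)) ^ n)).comp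
      Nat.measurable_floor)
  have h1 : allGt B p0 ∩ someGood B G p = allGt B p0 \ (allGt B p0 ∩ noGood B G p) := by
    rw [← someGood_compl]
    ext ω
    simp only [Set.mem_inter_iff, Set.mem_sdiff, Set.mem_compl_iff, not_and, not_not]
    tauto
  rw [h1, measure_sdiff Set.inter_subset_left
    ((measurableSet_allGt B p0).inter (measurableSet_noGood B hG p)).nullMeasurableSet
    (measure_ne_top _ _), core hBT h0 h01 hp hp1 hG hGT]
  have h2 : (∫⁻ ω, ENNReal.ofReal (1 - ((1 - p) / (1 - p0)) ^ nGood B G ω) ∂PrI ι) =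
      1 - ∫⁻ ω, ENNReal.ofReal (((1 - p) / (1 - p0)) ^ nGood B G ω) ∂PrI ι := by
    have h3 : ∀ ω : ι → unitInterval, ENNReal.ofReal (1 - ((1 - p) / (1 - p0)) ^ nGood B G ω) =
        1 - ENNReal.ofReal (((1 - p) / (1 - p0)) ^ nGood B G ω) := by
      intro ω
      rw [ENNReal.ofReal_sub _ (pow_nonneg hr0 _), ENNReal.ofReal_one]
    simp only [h3]
    rw [lintegral_sub hms, lintegral_one, measure_univ]
    · refine ne_of_lt (lt_of_le_of_lt (lintegral_mono (g := fun _ => (1 : ℝ≥0∞)) fun ω => ?_) ?_)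
      · exact ENNReal.ofReal_le_one.2 (pow_le_one₀ hr0 hr1)
      · simp
    · exact ae_of_all _ fun ω => ENNReal.ofReal_le_one.2 (pow_le_one₀ hr0 hr1)
  rw [h2, ENNReal.mul_sub (fun _ _ => measure_ne_top _ _), mul_one]

/-- SPRINKLING IDENTITY, abstract form: some good label in `B` is `≤ p` -/
theorem sprI_some {S T : Set ι} {B : Finset ι} (hST : Disjoint S T) (hBS : ∀ i ∈ B, i ∉ S)
    (hBT : ∀ i ∈ B, i ∉ T) {p0 p : ℝ} (h0 : 0 ≤ p0) (h01 : p0 < 1) (hp : p0 ≤ p) (hp1 : p ≤ 1)
    {f : (ι → unitInterval) → ℝ≥0∞} (hf : Measurable f) (hfS : DependsOn f S)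
    {G : ι → Set (ι → unitInterval)} (hG : ∀ i, MeasurableSet (G i))
    (hGT : ∀ i, DependsOn (fun ω => ω ∈ G i) T) :
    ∫⁻ ω, f ω * (allGt B p0 ∩ someGood B G p).indicator 1 ω ∂PrI ι =
      (∫⁻ ω, f ω * (allGt B p0).indicator 1 ω ∂PrI ι) *
        ∫⁻ ω, ENNReal.ofReal (1 - ((1 - p) / (1 - p0)) ^ nGood B G ω) ∂PrI ι := by
  classical
  have hd1 : DependsOn (fun ω => (allGt B p0).indicator (1 : (ι → unitInterval) → ℝ≥0∞) ω)
      (T ∪ (B : Set ι)) := by
    intro ω ω' h
    have : ω ∈ allGt B p0 ↔ ω' ∈ allGt B p0 := by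
      simp only [allGt, Set.mem_ofPred_eq]
      refine forall₂_congr fun i hi => ?_
      rw [h i (Or.inr (by simpa using hi))]
    simp only [Set.indicator_apply, this, Pi.one_apply]
  have hd2 : DependsOn (fun ω => (allGt B p0 ∩ someGood B G p).indicator
      (1 : (ι → unitInterval) → ℝ≥0∞) ω) (T ∪ (B : Set ι)) := by
    intro ω ω' h
    have h1 : ω ∈ allGt B p0 ↔ ω' ∈ allGt B p0 := by
      simp only [allGt, Set.mem_ofPred_eq]
      refine forall₂_congr fun i hi => ?_
      rw [h i (Or.inr (by simpa using hi))]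
    have h2 : ω ∈ someGood B G p ↔ ω' ∈ someGood B G p := by
      simp only [someGood, Set.mem_ofPred_eq]
      refine exists_congr fun i => and_congr_right fun hi => ?_
      have := hGT i (fun j hj => h j (Or.inl hj))
      simp only [this, h i (Or.inr (by simpa using hi))]
    simp only [Set.indicator_apply, Set.mem_inter_iff, h1, h2, Pi.one_apply]
  have hm : MeasurableSet (allGt B p0 ∩ someGood B G p) :=
    (measurableSet_allGt B p0).inter (measurableSet_someGood B hG p)
  rw [indep3 hST hBS hf hfS (measurable_one.indicator hm) hd2,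
    indep3 hST hBS hf hfS (measurable_one.indicator (measurableSet_allGt B p0)) hd1,
    lintegral_indicator_one hm, lintegral_indicator_one (measurableSet_allGt B p0),
    core_some hBT h0 h01 hp hp1 hG hGT, mul_assoc]

end Pool.Agent.PB
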