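import Pool.Agent.PB.Outs
import Pool.Agent.PB.Link
import Pool.Agent.PB.P.Loc
import Pool.Agent.PB.Spr.SprI

/-!
PROJECT PB, Section 9: definitions.

`K` finite vertex set, `A` a deletion. `bp K A` = pairs `(x, y')`, `x ∈ K`, `y' ∉ K ∪ A.S`, `{x,y'} ∉ A.F`, `x ~ y'`.
-/

set_option autoImplicit false
open MeasureTheory Filter Topology
open scoped ENNReal BigOperators

namespace Pool.Agent.PB

variable {d : ℕ}

/-- boundary pairs `(x, y')` of `K`, off the deletion `A` -/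
noncomputable def bp (K : Finset (V d)) (A : Del (V d)) : Finset (V d × V d) := by
  classical
  exact Finset.filter (fun q : V d × V d => q.2 ∉ K ∧ q.2 ∉ A.S ∧ s(q.1, q.2) ∉ A.F)
    ((K ×ˢ U1 d).image (fun q => (q.1, q.1 + q.2)))

theorem mem_bp {K : Finset (V d)} {A : Del (V d)} {q : V d × V d} :
    q ∈ bp K A ↔ q.1 ∈ K ∧ q.2 ∉ K ∧ q.2 ∉ A.S ∧ s(q.1, q.2) ∉ A.F ∧ l1 (q.2 - q.1) = 1 := by
  classical
  unfold bp
  simp only [Finset.mem_filter, Finset.mem_image, Finset.mem_product, Prod.exists]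
  constructor
  · rintro ⟨⟨a, u, ⟨ha, hu⟩, rfl⟩, h1, h2, h3⟩
    refine ⟨ha, h1, h2, h3, ?_⟩
    rw [mem_U1] at hu
    simpa using hu
  · rintro ⟨h1, h2, h3, h5, h4⟩
    refine ⟨⟨q.1, q.2 - q.1, ⟨h1, (mem_U1 _).2 h4⟩, ?_⟩, h2, h3, h5⟩
    ext1
    · rfl
    · simp

/-- the label of a pair -/
def li (q : V d × V d) : Ix d := Sum.inl s(q.1, q.2)

theorem li_inj {K : Finset (V d)} {A : Del (V d)} {q q' : V d × V d} (hq : q ∈ bp K A)
    (hq' : q' ∈ bp K A) (h : li q = li q') : q = q' := by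
  rw [mem_bp] at hq hq'
  have h1 : s(q.1, q.2) = s(q'.1, q'.2) := Sum.inl_injective h
  rw [Sym2.eq_iff] at h1
  rcases h1 with ⟨h1, h2⟩ | ⟨h1, h2⟩
  · exact Prod.ext h1 h2
  · exact absurd (h1 ▸ hq.1) hq'.2.1

/-- labels of the boundary pairs -/
noncomputable def bL (K : Finset (V d)) (A : Del (V d)) : Finset (Ix d) := by
  classical exact (bp K A).image li

theorem mem_bL {K : Finset (V d)} {A : Del (V d)} {i : Ix d} :
    i ∈ bL K A ↔ ∃ q ∈ bp K A, li q = i := by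
  classical
  unfold bL
  simp

/-- labels of edges inside `K`, ghosts in `K` -/
def inI (K : Set (V d)) : Set (Ix d) :=
  {i | (∃ e ∈ ins K, i = Sum.inl e) ∨ ∃ v ∈ K, ∃ b, i = Sum.inr (v, b)}

/-- the number of good boundary pairs -/
noncomputable def nB (K : Finset (V d)) (A : Del (V d)) (G : V d × V d → Set (Om d)) (ω : Om d) : ℕ := by
  classical exact ((bp K A).filter (fun q => ω ∈ G q)).card

/-- some good boundary pair has label `≤ p` -/
def hitB (K : Finset (V d)) (A : Del (V d)) (G : V d × V d → Set (Om d)) (p : ℝ) : Set (Om d) :=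
  {ω | ∃ q ∈ bp K A, ω ∈ G q ∧ ((ω (li q) : unitInterval) : ℝ) ≤ p}

/-- `{C_A(O_{p_c}, y) = K}` -/
def EvK (A : Del (V d)) (y : V d) (K : Finset (V d)) : Set (Om d) :=
  {ω | ClA A (Oc ω) y = (K : Set (V d))}

/-- `ε'' = - log((1-p)/(1-p_c))` -/
noncomputable def epp (d : ℕ) (p : ℝ) : ℝ := -Real.log ((1 - p) / (1 - pc d))

/-- the configuration of the explored cluster: `p_c`-open edges touching `K`, off `A` -/
noncomputable def cfg (A : Del (V d)) (K : Finset (V d)) (ω : Om d) : Set (Sym2 (V d)) :=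
  A.rem (Oc ω) ∩ touch (K : Set (V d))

end Pool.Agent.PB
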