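import Pool.Agent.PB.Spr.Asq
import Pool.Agent.PB.Mix.FunB

/-!
PB-SPR-MixB (Section 9.3).  The mixing theorem for the exponential functionals.

Plan. `w s N Y := 1 - exp (-(asq d s * max 0 (t*Y + η*N)))`. `h8.expW (a := 2/(1-pc)) (t := t) (η := η) (c0 := 2*d)
(as := asq d)` (`asq_nonneg`, `asq_le`) gives `c` with `IsW w (2*d) c`; `h6.isLSF R gL w (2*d) c` with the bound
`|gL L| ≤ 2 d` (`h8.gL_bd`) gives `IsLSF (Wf R gL w) c'`. Mixing (`h6.mixing`, `A := Del.ofSet A`, finite by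
`Del.ofSet_finite`): `(EW W s A y - psi A y * EW W s D0 0)/√s → 0`; `h8.explim R (1/(1-pc)) t η (asq d)` with `asq_lim`:
`EW W s D0 0/√s → L := √((1/(1-pc)) * max 0 (t * gbar d R + η)/b)`. So `EW W s A y/√s → psi A y * L` (sum; multiply
out, `√s ≠ 0` is not even needed if you write `EW/√s = (EW - psi EW0)/√s + psi (EW0/√s)` by `ring`). Compose with
`ε ↦ ε^2` (`Tendsto (fun ε => ε^2) (𝓝[>] 0) (𝓝[>] 0)`), `√(ε^2) = ε` for `ε > 0`; the limit is `< psi * L + δ`, so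
eventually `EW/ε ≤ psi L + δ`, i.e. the claim. `psiK A y = psi (Del.ofSet A) y` is `rfl`.
`WA_eq`: on `EvK`, `Cl ((ofSet A).rem (Oc ω)) y = ClA .. = K` (`y ∉ A`), `Nc = K.card` (`Set.ncard_coe_finset`).
`WA_lint`: `WA` is integrable (`WA_integrable` in Mix/FunB, from the `IsLSF` above) and `≥ 0` (`exp (-nonneg) ≤ 1`), so
`ofReal_integral_eq_lintegral_ofReal` gives equality.
-/

set_option autoImplicit false
open MeasureTheory Filter Topology
open scoped ENNReal BigOperators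

namespace Pool.Agent.PB

variable {d : ℕ}

/-- the functional `1 - exp(-a_s (tY + ηN)_+)` -/
noncomputable def WW (R : ℕ) (t η : ℝ) : ℝ → Set (Sym2 (V d)) → V d → ℝ :=
  Wf R gL (fun s N Y => 1 - Real.exp (-(asq d s * max 0 (t * Y + η * N))))

private theorem WW_lsf {b : ℝ} (h01 : pc d < 1) (h6 : Out6 d) (h8 : Out8 d b) (R : ℕ) {t η : ℝ}
    (ht : 0 ≤ t) : ∃ c, IsLSF (WW (d := d) R t η) c := by
  have h0 : (0 : ℝ) < 1 - pc d := by linarith
  have hd : (0 : ℝ) ≤ 2 * (d : ℝ) := by positivity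
  obtain ⟨c, hc⟩ := h8.expW (2 / (1 - pc d)) t η (2 * d) (asq d) (by positivity) ht hd
    asq_nonneg (fun s hs _ => asq_le h01 hs.le)
  exact h6.isLSF R gL _ (2 * d) c hc fun L hL h0L => by
    obtain ⟨h1, h2⟩ := h8.gL_bd L hL h0L
    rw [abs_of_nonneg h1]
    exact h2

theorem mix_bound {b : ℝ} (h01 : pc d < 1) (h6 : Out6 d) (h8 : Out8 d b) (R : ℕ) {t η : ℝ}
    (ht : 0 ≤ t) (A : Finset (V d)) {y : V d} (hyA : y ∉ A) {δ : ℝ} (hδ : 0 < δ) :
    ∀ᶠ ε in 𝓝[>] (0 : ℝ), EW (WW R t η) (ε ^ 2) (Del.ofSet (A : Set (V d))) y ≤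
      (psiK A y * Real.sqrt (1 / (1 - pc d) * max 0 (t * gbar d R + η) / b) + δ) * ε := by
  have h0 : (0 : ℝ) < 1 - pc d := by linarith
  obtain ⟨c, hc⟩ := WW_lsf (d := d) h01 h6 h8 R (η := η) ht
  have hy : y ∉ (Del.ofSet (A : Set (V d))).S := fun h => hyA (Finset.mem_coe.1 h)
  have h1 := h6.mixing _ c hc (Del.ofSet (A : Set (V d))) y (Del.ofSet_finite A.finite_toSet) hy
  have h2 := h8.explim R (1 / (1 - pc d)) t η (asq d) (by positivity) ht (asq_lim h01) asq_nonneg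
  set L : ℝ := Real.sqrt (1 / (1 - pc d) * max 0 (t * gbar d R + η) / b) with hL
  have h3 : Tendsto (fun s : ℝ => EW (WW R t η) s (Del.ofSet (A : Set (V d))) y / Real.sqrt s)
      (𝓝[>] 0) (𝓝 (0 + psiK A y * L)) := by
    refine (h1.add (h2.const_mul (psiK A y))).congr fun s => ?_
    show (EW (WW R t η) s (Del.ofSet (A : Set (V d))) y -
      psi (Del.ofSet (A : Set (V d))) y * EW (WW R t η) s D0 0) / Real.sqrt s +
      psi (Del.ofSet (A : Set (V d))) y * (EW (WW R t η) s D0 0 / Real.sqrt s) = _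
    ring
  have hsq : Tendsto (fun ε : ℝ => ε ^ 2) (𝓝[>] 0) (𝓝[>] 0) := by
    refine tendsto_nhdsWithin_iff.2 ⟨?_, ?_⟩
    · have h4 : Tendsto (fun ε : ℝ => ε ^ 2) (𝓝 0) (𝓝 ((0 : ℝ) ^ 2)) :=
        (continuous_pow 2).tendsto 0
      rw [zero_pow two_ne_zero] at h4
      exact h4.mono_left nhdsWithin_le_nhds
    · filter_upwards [self_mem_nhdsWithin] with ε hε
      have hε' : (0 : ℝ) < ε := hε
      exact pow_pos hε' 2
  have h4 := (h3.comp hsq).eventually_lt_const (show 0 + psiK A y * L < psiK A y * L + δ by linarith)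
  filter_upwards [h4, self_mem_nhdsWithin] with ε h5 hε
  have hε' : (0 : ℝ) < ε := hε
  have h6' : EW (WW R t η) (ε ^ 2) (Del.ofSet (A : Set (V d))) y / Real.sqrt (ε ^ 2) <
      psiK A y * L + δ := h5
  rw [Real.sqrt_sq hε'.le, div_lt_iff₀ hε'] at h6'
  exact h6'.le

/-- value of the functional on the exploration event -/
theorem WA_eq {A : Finset (V d)} {y : V d} (hyA : y ∉ A) {K : Finset (V d)} {ω : Om d}
    (hω : ω ∈ EvK (Del.ofSet (A : Set (V d))) y K) (R : ℕ) (t η s : ℝ) :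
    WA (WW R t η) s (Del.ofSet (A : Set (V d))) (Oc ω) y =
      1 - Real.exp (-(asq d s * max 0
        (t * Yf R gL ((Del.ofSet (A : Set (V d))).rem (Oc ω)) y + η * K.card))) := by
  have hy : y ∉ (Del.ofSet (A : Set (V d))).S := fun h => hyA (Finset.mem_coe.1 h)
  have h1 : Cl ((Del.ofSet (A : Set (V d))).rem (Oc ω)) y = (K : Set (V d)) := by
    rw [← hω]
    ext x
    exact ⟨fun h => ⟨hy, h⟩, fun h => h.2⟩
  have h2 : Nc ((Del.ofSet (A : Set (V d))).rem (Oc ω)) y = K.card := by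
    unfold Nc
    rw [h1, Set.ncard_coe_finset]
  unfold WA
  rw [if_neg hy]
  unfold WW Wf
  rw [h2]

/-- integrability and positivity of the functional -/
theorem WA_lint {A : Finset (V d)} {y : V d} (h6 : Out6 d) {b : ℝ} (h8 : Out8 d b) (h01 : pc d < 1)
    (R : ℕ) {t η : ℝ} (ht : 0 ≤ t) {s : ℝ} (hs : 0 < s) (hs1 : s ≤ 1) :
    ∫⁻ ω, ENNReal.ofReal (WA (WW R t η) s (Del.ofSet (A : Set (V d))) (Oc ω) y) ∂Pr d ≤
      ENNReal.ofReal (EW (WW R t η) s (Del.ofSet (A : Set (V d))) y) := by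
  obtain ⟨c, hc⟩ := WW_lsf (d := d) h01 h6 h8 R (η := η) ht
  have h1 := WA_integrable hc hs hs1 (Del.ofSet (A : Set (V d))) y
  have h2 : 0 ≤ᵐ[Pr d] fun ω : Om d => WA (WW R t η) s (Del.ofSet (A : Set (V d))) (Oc ω) y := by
    refine Filter.Eventually.of_forall fun ω => ?_
    show (0 : ℝ) ≤ WA (WW R t η) s (Del.ofSet (A : Set (V d))) (Oc ω) y
    unfold WA
    split_ifs with hy
    · exact le_rfl
    · unfold WW Wf
      rw [sub_nonneg, Real.exp_le_one_iff, neg_nonpos]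
      exact mul_nonneg (asq_nonneg s) (le_max_left _ _)
  exact (ofReal_integral_eq_lintegral_ofReal h1 h2).ge

end Pool.Agent.PB
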